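import Pool.Agent.Lib.MP_24b7a7_co.Count

/-!
MP_24b7a7_co: the final account. A play which ends cannot exist.
-/

set_option autoImplicit false

namespace Pool.Agent.Lib.MP_24b7a7_co

open Finset

namespace Blocks

variable (K : Blocks)

lemma le_b (n : ℕ) : n ≤ K.b n := by
  induction n with
  | zero => exact Nat.zero_le _
  | succ n ih =>
    have := K.xpos n
    rw [K.bs]
    omega

/-- a row lies in the windows of at most two blocks -/
lemma windows {I : Finset ℕ} {τ : ℕ → ℕ} (hτ : ∀ n ∈ I, K.ix (τ n) = n) (y : ℕ) :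
    (I.filter fun n => τ n < y ∧ y ≤ τ n + 2 * K.x n).card ≤ 2 := by
  have h : (I.filter fun n => τ n < y ∧ y ≤ τ n + 2 * K.x n) ⊆ {K.ix y - 1, K.ix y} := by
    intro n hn
    obtain ⟨hnI, h1, h2⟩ := mem_filter.1 hn
    have h3 := K.lo (τ n)
    have h4 := K.hi (τ n)
    rw [hτ n hnI] at h3 h4
    have h5 := K.lo y
    have h6 := K.hi y
    have h7 : n ≤ K.ix y := by
      by_contra hcon
      push Not at hcon
      have := K.b_mono (show K.ix y + 1 ≤ n from hcon)
      omega
    have h8 : K.ix y < n + 2 := by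
      by_contra hcon
      push Not at hcon
      have h9 := K.b_mono hcon
      have h10 := K.bs (n + 1)
      have h11 := K.xmono n
      have h12 : n + 1 + 1 = n + 2 := rfl
      rw [h12] at h10
      omega
    rw [mem_insert, mem_singleton]
    omega
  exact (card_le_card h).trans card_le_two

end Blocks

section

variable {K : Blocks} {T : ℕ} (p : Play K T)

lemma Play.card_diff (t k : ℕ) : (p.D (t + k) \ p.D t).card ≤ k := by
  induction k with
  | zero => simp
  | succ k ih =>
    have h1 : p.D (t + (k + 1)) \ p.D t ⊆ (p.D (t + k + 1) \ p.D (t + k)) ∪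
        (p.D (t + k) \ p.D t) := by
      intro v hv
      rw [← add_assoc] at hv
      simp only [mem_sdiff, mem_union] at hv ⊢
      tauto
    have h2 := (card_le_card h1).trans (card_union_le _ _)
    have h3 := p.Dcard (t + k)
    omega

lemma Play.mem_D {t : ℕ} {v : Vx} (hv : v ∈ p.D t) : ∃ s < t, v ∈ p.D (s + 1) \ p.D s := by
  induction t with
  | zero =>
    rw [p.D0] at hv
    exact absurd hv (notMem_empty _)
  | succ t ih =>
    by_cases h : v ∈ p.D t
    · obtain ⟨s, h1, h2⟩ := ih h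
      exact ⟨s, by omega, h2⟩
    · exact ⟨t, by omega, mem_sdiff.2 ⟨hv, h⟩⟩

open Classical in
lemma Play.block_loss (n : ℕ) :
    ∑ ρ ∈ Ico (K.b n) (K.b (n + 1)), p.loss ρ ≤ if p.Bad n then 12 * K.x n ^ 2 else 0 := by
  obtain ⟨m, hm⟩ : ∃ m, 2 * K.x n = m + 1 := ⟨2 * K.x n - 1, by have := K.xpos n; omega⟩
  have hix : ∀ i < m + 1, K.ix (K.b n + i) = n := fun i hi =>
    K.ix_eq (by omega) (by rw [K.bs]; omega)
  have hloss : ∀ i < m + 1, p.loss (K.b n + i) = if p.Bad n then
      (if K.ix (K.b n + i + 1) = n then 4 * K.x n else 2 * K.x n * (2 * K.x n + 1)) else 0 := by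
    intro i hi
    rw [Play.loss, Blocks.w, hix i hi]
  have h1 : ∑ ρ ∈ Ico (K.b n) (K.b (n + 1)), p.loss ρ =
      ∑ i ∈ range (m + 1), p.loss (K.b n + i) := by
    rw [sum_Ico_eq_sum_range, K.bs]
    congr 1
    rw [hm]
    congr 1
    omega
  rw [h1]
  by_cases hb : p.Bad n
  · rw [if_pos hb, sum_range_succ]
    have h2 : ∑ i ∈ range m, p.loss (K.b n + i) ≤ ∑ i ∈ range m, 4 * K.x n := by
      refine sum_le_sum fun i hi => ?_
      have hi' := mem_range.1 hi
      have h3 : K.ix (K.b n + i + 1) = n := hix (i + 1) (by omega)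
      rw [hloss i (by omega), if_pos hb, if_pos h3]
    have h3 : p.loss (K.b n + m) ≤ 2 * K.x n * (2 * K.x n + 1) := by
      rw [hloss m (by omega), if_pos hb]
      split_ifs with h
      · have := K.xpos n
        nlinarith
      · exact le_rfl
    rw [sum_const, card_range, smul_eq_mul] at h2
    have h4 : m * (4 * K.x n) + 4 * K.x n = 8 * K.x n ^ 2 := by
      calc m * (4 * K.x n) + 4 * K.x n = (m + 1) * (4 * K.x n) := by ring
        _ = 2 * K.x n * (4 * K.x n) := by rw [hm]
        _ = 8 * K.x n ^ 2 := by ring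
    nlinarith
  · rw [if_neg hb]
    refine (sum_eq_zero fun i hi => ?_).le
    rw [hloss i (mem_range.1 hi), if_neg hb]

open Classical in
lemma Play.sum_loss (N : ℕ) :
    ∑ ρ ∈ range (K.b N), p.loss ρ ≤ ∑ n ∈ range N, if p.Bad n then 12 * K.x n ^ 2 else 0 := by
  induction N with
  | zero =>
    rw [K.b0]
    simp
  | succ N ih =>
    rw [sum_range_succ, ← sum_range_add_sum_Ico _ (K.b_mono (Nat.le_succ N))]
    exact add_le_add ih (p.block_loss N)

lemma sum_filter_le_two {α : Type} {I : Finset ℕ} {F : Finset α} {g : α → ℕ}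
    {P : ℕ → α → Prop} [∀ n v, Decidable (P n v)] (h : ∀ v ∈ F, (I.filter fun n => P n v).card ≤ 2) :
    ∑ n ∈ I, ∑ v ∈ F.filter (P n), g v ≤ 2 * ∑ v ∈ F, g v := by
  have h1 : ∑ n ∈ I, ∑ v ∈ F.filter (P n), g v = ∑ v ∈ F, (I.filter fun n => P n v).card * g v := by
    simp only [sum_filter]
    rw [sum_comm]
    refine sum_congr rfl fun v _ => ?_
    rw [← sum_filter, sum_const, smul_eq_mul]
  rw [h1, mul_sum]
  exact sum_le_sum fun v hv => Nat.mul_le_mul_right _ (h v hv)

include p in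
/-- **No play ends.** -/
theorem Play.false (hK : ∀ ρ, ρ ≤ 8 * K.w ρ ^ 3) : False := by
  classical
  obtain ⟨C, hCT, hInv, hRel⟩ := p.exists_sets
  -- the number of deletions
  have hcount : ∀ k ≤ T, (C 0).card + ∑ ρ ∈ range k, (p.saved ρ (C (ρ + 1))).card ≤
      (C k).card + k + ∑ ρ ∈ range k, p.loss ρ := by
    intro k
    induction k with
    | zero => simp
    | succ k ih =>
      intro hk
      have h1 := ih (by omega)
      have h2 := (hRel k (by omega)).2.2
      rw [sum_range_succ, sum_range_succ]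
      omega
  have hcountT := hcount T le_rfl
  rw [hCT, card_empty, zero_add] at hcountT
  set B := (range T).filter p.Bad with hB
  have hloss : ∑ ρ ∈ range T, p.loss ρ ≤ 12 * ∑ n ∈ B, K.x n ^ 2 := by
    have h1 : ∑ ρ ∈ range T, p.loss ρ ≤ ∑ ρ ∈ range (K.b T), p.loss ρ :=
      sum_le_sum_of_subset (range_subset_range.2 (K.le_b T))
    refine (h1.trans (p.sum_loss T)).trans ?_
    rw [← sum_filter, ← mul_sum]
  -- the runs
  obtain ⟨H, hH⟩ : ∃ H, Rr C H = ∅ := by
    refine dead_iff.1 fun u hu => ?_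
    rw [← p.S0] at hu
    rw [und_B0, ← p.D0C]
    exact (hInv 0 (Nat.zero_le _)).2.1 u hu
  have hHT : T ≤ H := by
    by_contra hcon
    push Not at hcon
    obtain ⟨u, hu⟩ := p.Sne H hcon
    have h1 := p.S_sub hInv hRel hcon.le hu
    rw [hH] at h1
    exact notMem_empty _ h1
  have hgrow : 1 + ∑ y ∈ range H, cc (Rr C y) ≤ (C 0).card := by
    have h1 := growth (B0 C) 0 {0} H
    have h2 : rch (B0 C) 0 {0} H = ∅ := hH
    rw [h2, card_empty, zero_add, card_singleton] at h1
    have h3 : (hits (B0 C) 0 {0} H).card ≤ (C 0).card :=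
      card_le_card ((filter_subset _ _).trans fun v hv => (mem_B0.1 hv).1)
    have h4 : ∑ y ∈ range H, cc (Rr C y) = ∑ n ∈ range H, cc (rch (B0 C) 0 {0} n) := rfl
    omega
  set ex := ∑ y ∈ range H, (cc (Rr C y) - 1) with hex
  have hruns : T + ex ≤ ∑ y ∈ range H, cc (Rr C y) := by
    have h1 : ∑ y ∈ range H, ((if y < T then 1 else 0) + (cc (Rr C y) - 1)) ≤
        ∑ y ∈ range H, cc (Rr C y) := by
      refine sum_le_sum fun y _ => ?_
      split_ifs with h
      · have := cc_pos ((p.Sne y h).mono (p.S_sub hInv hRel h.le))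
        omega
      · omega
    rw [sum_add_distrib, ← card_filter] at h1
    have h2 : (range H).filter (fun y => y < T) = range T := by
      ext y
      simp only [mem_filter, mem_range]
      omega
    rw [h2, card_range] at h1
    exact h1
  -- the heavy rows
  have hτ : ∀ n ∈ B, ∃ t < T, K.ix t = n ∧
      198 * K.w t ^ 2 < weight (p.D t) t (K.w t) (p.S t) := fun n hn => (mem_filter.1 hn).2
  choose! τ hτT hτn hτw using hτ
  have hτx : ∀ n ∈ B, K.w (τ n) = K.x n := fun n hn => by rw [Blocks.w, hτn n hn]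
  have hprice : ∀ n ∈ B, 28 * K.x n ^ 2 ≤ (p.encl C (τ n)).card + exc C (τ n) (K.x n) := by
    intro n hn
    have h1 := p.weight_le hInv hRel (hτT n hn)
    have h2 := hτw n hn
    have h3 := hK (τ n)
    rw [hτx n hn] at h1 h2 h3
    have h4 : lanesIn (τ n) (K.x n) ≤ 8 * K.x n ^ 2 + 1 := by
      refine Nat.succ_le_succ (Nat.div_le_of_le_mul (h3.trans ?_))
      apply le_of_eq
      ring
    have h5 := K.xpos n
    have h6 : K.x n ≤ K.x n ^ 2 := Nat.le_self_pow (by norm_num) _
    omega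
  set Sav := (range T).biUnion fun t => p.saved t (C (t + 1)) with hSav
  have hSavc : Sav.card ≤ ∑ ρ ∈ range T, (p.saved ρ (C (ρ + 1))).card := card_biUnion_le
  have hencl : ∀ n ∈ B, (p.encl C (τ n)).card ≤
      ∑ v ∈ Sav.filter (fun v => τ n < v.2 ∧ v.2 ≤ τ n + 2 * K.x n), 1 + 4 * K.x n ^ 2 := by
    intro n hn
    rw [← card_eq_sum_ones]
    have hx := hτx n hn
    have h1 : p.encl C (τ n) ⊆ (Sav.filter fun v => τ n < v.2 ∧ v.2 ≤ τ n + 2 * K.x n) ∪
        (p.D (τ n) \ p.D (τ n - 4 * K.x n)) := by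
      intro v hv
      obtain ⟨hvD, ⟨hv1, hv2⟩, hvU⟩ := mem_filter.1 hv
      rw [hx] at hv2
      by_cases h : v ∈ p.D (τ n - 4 * K.x n)
      · refine mem_union_left _ (mem_filter.2 ⟨?_, hv1, by omega⟩)
        obtain ⟨t, ht, hvt⟩ := p.mem_D h
        have htT : t < T := by
          have := hτT n hn
          omega
        refine mem_biUnion.2 ⟨t, mem_range.2 htT, mem_filter.2 ⟨hvt, ?_⟩⟩
        refine p.und_up hRel (Nat.zero_le _) (Nat.succ_le_of_lt htT) (fun σ hσ => ?_)
          ((p.D0C v).2 hvU)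
        have h2 := K.w_mono (show σ ≤ τ n by omega)
        rw [hx] at h2
        omega
      · exact mem_union_right _ (mem_sdiff.2 ⟨hvD, h⟩)
    have h2 := (card_le_card h1).trans (card_union_le _ _)
    have h3 : (p.D (τ n) \ p.D (τ n - 4 * K.x n)).card ≤ 4 * K.x n := by
      by_cases h : 4 * K.x n ≤ τ n
      · have h4 := p.card_diff (τ n - 4 * K.x n) (4 * K.x n)
        rwa [Nat.sub_add_cancel h] at h4
      · have h4 : τ n - 4 * K.x n = 0 := by omega
        have h5 := p.card_diff 0 (τ n)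
        rw [zero_add] at h5
        rw [h4]
        omega
    have h6 : K.x n ≤ K.x n ^ 2 := Nat.le_self_pow (by norm_num) _
    omega
  have hexc : ∀ n ∈ B, exc C (τ n) (K.x n) ≤
      ∑ y ∈ (range H).filter (fun y => τ n < y ∧ y ≤ τ n + 2 * K.x n), (cc (Rr C y) - 1) := by
    intro n _
    have h1 : exc C (τ n) (K.x n) =
        ∑ y ∈ (Ioc (K.x n) (2 * K.x n)).image (fun j => τ n + j), (cc (Rr C y) - 1) := by
      rw [sum_image]
      · rfl
      · intro i _ j _ hij
        exact Nat.add_left_cancel hij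
    rw [h1]
    refine sum_le_sum_of_ne_zero fun y hy hne => ?_
    obtain ⟨j, hj, rfl⟩ := mem_image.1 hy
    obtain ⟨hj1, hj2⟩ := mem_Ioc.1 hj
    refine mem_filter.2 ⟨mem_range.2 ?_, by omega, by omega⟩
    by_contra hcon
    push Not at hcon
    have h2 : Rr C (τ n + j) = ∅ := rch_eq_empty_of_le hcon hH
    rw [h2, cc_empty] at hne
    exact hne rfl
  have hwin : ∀ y, (B.filter fun n => τ n < y ∧ y ≤ τ n + 2 * K.x n).card ≤ 2 :=
    fun y => K.windows hτn y
  have h1 : ∑ n ∈ B, ∑ v ∈ Sav.filter (fun v => τ n < v.2 ∧ v.2 ≤ τ n + 2 * K.x n), 1 ≤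
      2 * ∑ v ∈ Sav, 1 := sum_filter_le_two (g := fun _ => 1) fun v _ => hwin v.2
  have h2 : ∑ n ∈ B, ∑ y ∈ (range H).filter (fun y => τ n < y ∧ y ≤ τ n + 2 * K.x n),
      (cc (Rr C y) - 1) ≤ 2 * ex := sum_filter_le_two fun y _ => hwin y
  have h3 := sum_le_sum hprice
  have h4 := sum_le_sum hencl
  have h5 := sum_le_sum hexc
  rw [sum_add_distrib] at h3 h4
  rw [← mul_sum] at h3 h4
  rw [← card_eq_sum_ones] at h1
  omega

end

end Pool.Agent.Lib.MP_24b7a7_co
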