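import Mathlib

/-!
MP_24b7a7_co: reachability in the eighth plane, enclosed vertices, and the notion of a robust
replacement of a set of occupied vertices by a smaller one.

A vertex is a pair `(column, row)`; its children are `(u, y + 1)` and `(u + 1, y + 1)`.
-/

set_option autoImplicit false

namespace Pool.Agent.Lib.MP_24b7a7_co

open Finset

/-- vertices: (column, row) -/
abbrev Vx := ℕ × ℕ

/-- columns of the children of the vertices with columns in `R` -/
def nb (R : Finset ℕ) : Finset ℕ := R ∪ R.image (· + 1)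

/-- one step upward from row `y`, avoiding `B` -/
def stp (B : Finset Vx) (y : ℕ) (R : Finset ℕ) : Finset ℕ := (nb R).filter fun u => (u, y + 1) ∉ B

/-- columns reached in row `y + n` from the columns `R` of row `y` -/
def rch (B : Finset Vx) (y : ℕ) (R : Finset ℕ) : ℕ → Finset ℕ
  | 0 => R
  | n + 1 => stp B (y + n) (rch B y R n)

lemma mem_nb {R : Finset ℕ} {u : ℕ} : u ∈ nb R ↔ u ∈ R ∨ ∃ w ∈ R, w + 1 = u := by
  simp [nb]

lemma mem_stp {B : Finset Vx} {y : ℕ} {R : Finset ℕ} {u : ℕ} :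
    u ∈ stp B y R ↔ (u ∈ R ∨ ∃ w ∈ R, w + 1 = u) ∧ (u, y + 1) ∉ B := by
  simp [stp, mem_nb]

@[simp] lemma rch_zero (B : Finset Vx) (y : ℕ) (R : Finset ℕ) : rch B y R 0 = R := rfl

lemma rch_succ (B : Finset Vx) (y : ℕ) (R : Finset ℕ) (n : ℕ) :
    rch B y R (n + 1) = stp B (y + n) (rch B y R n) := rfl

lemma mem_rch_succ {B : Finset Vx} {y : ℕ} {R : Finset ℕ} {n u : ℕ} :
    u ∈ rch B y R (n + 1) ↔
      (u ∈ rch B y R n ∨ ∃ w ∈ rch B y R n, w + 1 = u) ∧ (u, y + n + 1) ∉ B := by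
  rw [rch_succ, mem_stp]

lemma nb_union (R R' : Finset ℕ) : nb (R ∪ R') = nb R ∪ nb R' := by
  ext u
  simp only [mem_nb, mem_union]
  constructor
  · rintro ((h | h) | ⟨w, h | h, rfl⟩)
    · exact Or.inl (Or.inl h)
    · exact Or.inr (Or.inl h)
    · exact Or.inl (Or.inr ⟨w, h, rfl⟩)
    · exact Or.inr (Or.inr ⟨w, h, rfl⟩)
  · rintro ((h | ⟨w, h, rfl⟩) | (h | ⟨w, h, rfl⟩))
    · exact Or.inl (Or.inl h)
    · exact Or.inr ⟨w, Or.inl h, rfl⟩
    · exact Or.inl (Or.inr h)
    · exact Or.inr ⟨w, Or.inr h, rfl⟩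

lemma nb_mono {R R' : Finset ℕ} (h : R ⊆ R') : nb R ⊆ nb R' := by
  intro u hu
  rw [mem_nb] at hu ⊢
  rcases hu with hu | ⟨w, hw, rfl⟩
  · exact Or.inl (h hu)
  · exact Or.inr ⟨w, h hw, rfl⟩

lemma stp_union (B : Finset Vx) (y : ℕ) (R R' : Finset ℕ) :
    stp B y (R ∪ R') = stp B y R ∪ stp B y R' := by
  rw [stp, stp, stp, nb_union, filter_union]

lemma rch_union (B : Finset Vx) (y : ℕ) (R R' : Finset ℕ) (n : ℕ) :
    rch B y (R ∪ R') n = rch B y R n ∪ rch B y R' n := by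
  induction n with
  | zero => rfl
  | succ n ih => rw [rch_succ, rch_succ, rch_succ, ih, stp_union]

lemma rch_mono {B : Finset Vx} {y : ℕ} {R R' : Finset ℕ} (h : R ⊆ R') (n : ℕ) :
    rch B y R n ⊆ rch B y R' n := by
  have h1 := rch_union B y R R' n
  rw [union_eq_right.2 h] at h1
  rw [h1]
  exact subset_union_left

/-- reachability only depends on the deleted vertices of the rows passed -/
lemma rch_sub {B B' : Finset Vx} {y : ℕ} {R : Finset ℕ} {n : ℕ}
    (h : ∀ v ∈ B', y < v.2 → v.2 ≤ y + n → v ∈ B) : rch B y R n ⊆ rch B' y R n := by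
  induction n with
  | zero => exact Subset.rfl
  | succ n ih =>
    have ih' := ih fun v hv h1 h2 => h v hv h1 (by omega)
    intro u hu
    rw [mem_rch_succ] at hu ⊢
    refine ⟨?_, fun hB => hu.2 (h _ hB (by show y < y + n + 1; omega) (by show y + n + 1 ≤ _; omega))⟩
    rcases hu.1 with h1 | ⟨w, h1, rfl⟩
    · exact Or.inl (ih' h1)
    · exact Or.inr ⟨w, ih' h1, rfl⟩

lemma rch_congr {B B' : Finset Vx} {y : ℕ} {R : Finset ℕ} {n : ℕ}
    (h : ∀ v : Vx, y < v.2 → v.2 ≤ y + n → (v ∈ B ↔ v ∈ B')) : rch B y R n = rch B' y R n :=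
  Subset.antisymm (rch_sub fun v hv h1 h2 => (h v h1 h2).2 hv)
    (rch_sub fun v hv h1 h2 => (h v h1 h2).1 hv)

lemma rch_add (B : Finset Vx) (y : ℕ) (R : Finset ℕ) (m n : ℕ) :
    rch B y R (m + n) = rch B (y + m) (rch B y R m) n := by
  induction n with
  | zero => rfl
  | succ n ih => rw [← add_assoc, rch_succ, rch_succ, ih, add_assoc]

lemma rch_empty (B : Finset Vx) (y n : ℕ) : rch B y ∅ n = ∅ := by
  induction n with
  | zero => rfl
  | succ n ih =>
    rw [rch_succ, ih]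
    rfl

lemma rch_eq_empty_of_le {B : Finset Vx} {y : ℕ} {R : Finset ℕ} {m n : ℕ} (hmn : m ≤ n)
    (h : rch B y R m = ∅) : rch B y R n = ∅ := by
  obtain ⟨k, rfl⟩ := Nat.exists_eq_add_of_le hmn
  rw [rch_add, h, rch_empty]

/-- every reached vertex is reached from one of the starting columns, within the cone -/
lemma mem_rch_singleton {B : Finset Vx} {y : ℕ} {R : Finset ℕ} {n u : ℕ} :
    u ∈ rch B y R n ↔ ∃ a ∈ R, u ∈ rch B y {a} n := by
  induction n generalizing u with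
  | zero => simp
  | succ n ih =>
    constructor
    · intro h
      obtain ⟨h1 | ⟨w, h1, rfl⟩, h2⟩ := mem_rch_succ.1 h
      · obtain ⟨a, ha, h3⟩ := ih.1 h1
        exact ⟨a, ha, mem_rch_succ.2 ⟨Or.inl h3, h2⟩⟩
      · obtain ⟨a, ha, h3⟩ := ih.1 h1
        exact ⟨a, ha, mem_rch_succ.2 ⟨Or.inr ⟨w, h3, rfl⟩, h2⟩⟩
    · rintro ⟨a, ha, h⟩
      exact rch_mono (singleton_subset_iff.2 ha) _ h

lemma rch_bounds {B : Finset Vx} {y : ℕ} {R : Finset ℕ} {l r : ℕ}
    (hR : ∀ u ∈ R, l ≤ u ∧ u < r) (n : ℕ) : ∀ u ∈ rch B y R n, l ≤ u ∧ u < r + n := by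
  induction n with
  | zero => exact hR
  | succ n ih =>
    intro u hu
    obtain ⟨h1 | ⟨w, h1, rfl⟩, -⟩ := mem_rch_succ.1 hu
    · have := ih u h1
      omega
    · have := ih w h1
      omega

lemma rch_notMem {B : Finset Vx} {y : ℕ} {R : Finset ℕ} {n u : ℕ} (hn : 0 < n)
    (h : u ∈ rch B y R n) : (u, y + n) ∉ B := by
  obtain ⟨m, rfl⟩ := Nat.exists_eq_add_of_lt hn
  rw [zero_add] at h ⊢
  exact (mem_rch_succ.1 h).2

/-! ### Paths -/

/-- `f` is a path with `N` steps from row `y` which avoids `B` after its start -/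
def IsPath (B : Finset Vx) (y : ℕ) (f : ℕ → ℕ) (N : ℕ) : Prop :=
  ∀ n < N, (f (n + 1) = f n ∨ f (n + 1) = f n + 1) ∧ (f (n + 1), y + n + 1) ∉ B

lemma IsPath.mem_rch {B : Finset Vx} {y : ℕ} {f : ℕ → ℕ} {N : ℕ} (hf : IsPath B y f N)
    {R : Finset ℕ} {m : ℕ} (hm : f m ∈ rch B y R m) {n : ℕ} (hmn : m ≤ n) (hn : n ≤ N) :
    f n ∈ rch B y R n := by
  induction n, hmn using Nat.le_induction with
  | base => exact hm
  | succ n hmn ih =>
    have h1 := ih (by omega)
    obtain ⟨h2 | h2, h3⟩ := hf n (by omega)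
    · exact mem_rch_succ.2 ⟨Or.inl (h2 ▸ h1), h3⟩
    · exact mem_rch_succ.2 ⟨Or.inr ⟨f n, h1, h2.symm⟩, h3⟩

lemma IsPath.mem_rch_zero {B : Finset Vx} {y : ℕ} {f : ℕ → ℕ} {N : ℕ} (hf : IsPath B y f N)
    {R : Finset ℕ} (h0 : f 0 ∈ R) {n : ℕ} (hn : n ≤ N) : f n ∈ rch B y R n :=
  hf.mem_rch (m := 0) h0 (Nat.zero_le _) hn

lemma exists_path_of_mem_rch {B : Finset Vx} {y : ℕ} {R : Finset ℕ} {n u : ℕ}
    (h : u ∈ rch B y R n) : ∃ f : ℕ → ℕ, f 0 ∈ R ∧ f n = u ∧ IsPath B y f n := by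
  classical
  induction n generalizing u with
  | zero => exact ⟨fun _ => u, h, rfl, fun n hn => absurd hn (Nat.not_lt_zero _)⟩
  | succ n ih =>
    obtain ⟨h1, h2⟩ := mem_rch_succ.1 h
    obtain ⟨w, hw, hwu⟩ : ∃ w ∈ rch B y R n, u = w ∨ u = w + 1 := by
      rcases h1 with h1 | ⟨w, h1, rfl⟩
      · exact ⟨u, h1, Or.inl rfl⟩
      · exact ⟨w, h1, Or.inr rfl⟩
    obtain ⟨f, h0, hn, hf⟩ := ih hw
    refine ⟨Function.update f (n + 1) u, ?_, by simp, fun m hm => ?_⟩
    · rw [Function.update_of_ne (by omega)]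
      exact h0
    · by_cases hmn : m = n
      · subst hmn
        rw [Function.update_self, Function.update_of_ne (by omega), hn]
        exact ⟨hwu, h2⟩
      · rw [Function.update_of_ne (by omega), Function.update_of_ne (by omega)]
        exact hf m (by omega)

/-- a set to the left of a path, which it does not meet, stays to the left of it -/
lemma left_of_path {B : Finset Vx} {y : ℕ} {f : ℕ → ℕ} {N : ℕ} (hf : IsPath B y f N)
    {R : Finset ℕ} (hR : ∀ u ∈ R, u < f 0) (hd : ∀ n ≤ N, f n ∉ rch B y R n) :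
    ∀ n ≤ N, ∀ u ∈ rch B y R n, u < f n := by
  intro n
  induction n with
  | zero => exact fun _ => hR
  | succ n ih =>
    intro hn u hu
    have ih' := ih (by omega)
    have h1 := (hf n (by omega)).1
    have h2 : u ≠ f (n + 1) := fun h => hd _ hn (h ▸ hu)
    obtain ⟨h3 | ⟨w, h3, rfl⟩, -⟩ := mem_rch_succ.1 hu
    · have := ih' u h3
      omega
    · have := ih' w h3
      omega

/-- a set to the right of a path, which it does not meet, stays to the right of it -/
lemma right_of_path {B : Finset Vx} {y : ℕ} {f : ℕ → ℕ} {N : ℕ} (hf : IsPath B y f N)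
    {R : Finset ℕ} (hR : ∀ u ∈ R, f 0 < u) (hd : ∀ n ≤ N, f n ∉ rch B y R n) :
    ∀ n ≤ N, ∀ u ∈ rch B y R n, f n < u := by
  intro n
  induction n with
  | zero => exact fun _ => hR
  | succ n ih =>
    intro hn u hu
    have ih' := ih (by omega)
    have h1 := (hf n (by omega)).1
    have h2 : u ≠ f (n + 1) := fun h => hd _ hn (h ▸ hu)
    obtain ⟨h3 | ⟨w, h3, rfl⟩, -⟩ := mem_rch_succ.1 hu
    · have := ih' u h3
      omega
    · have := ih' w h3
      omega

/-! ### Growth -/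

/-- the number of runs of a set of columns -/
def cc (R : Finset ℕ) : ℕ := (R.filter fun u => u + 1 ∉ R).card

lemma card_nb (R : Finset ℕ) : (nb R).card = R.card + cc R := by
  have h1 : nb R = R ∪ (R.filter fun u => u + 1 ∉ R).image (· + 1) := by
    ext u
    simp only [mem_nb, mem_union, mem_image, mem_filter]
    constructor
    · rintro (h | ⟨w, h, rfl⟩)
      · exact Or.inl h
      · by_cases h1 : w + 1 ∈ R
        · exact Or.inl h1
        · exact Or.inr ⟨w, ⟨h, h1⟩, rfl⟩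
    · rintro (h | ⟨w, ⟨h, -⟩, rfl⟩)
      · exact Or.inl h
      · exact Or.inr ⟨w, h, rfl⟩
  rw [h1, card_union_of_disjoint, card_image_of_injective _ (add_left_injective 1), cc]
  refine disjoint_left.2 fun u hu hu' => ?_
  obtain ⟨w, hw, rfl⟩ := mem_image.1 hu'
  exact (mem_filter.1 hw).2 hu

lemma cc_pos {R : Finset ℕ} (h : R.Nonempty) : 0 < cc R :=
  card_pos.2 ⟨R.max' h, mem_filter.2 ⟨R.max'_mem h, fun h1 => by
    have := R.le_max' _ h1
    omega⟩⟩

lemma cc_empty : cc ∅ = 0 := rfl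

/-- the deleted vertices hit within `N` steps from the columns `R` of row `y` -/
def hits (B : Finset Vx) (y : ℕ) (R : Finset ℕ) (N : ℕ) : Finset Vx :=
  B.filter fun v => y < v.2 ∧ v.2 ≤ y + N ∧ v.1 ∈ nb (rch B y R (v.2 - y - 1))

lemma hits_succ (B : Finset Vx) (y : ℕ) (R : Finset ℕ) (n : ℕ) :
    (hits B y R (n + 1)).card = (hits B y R n).card +
      ((nb (rch B y R n)).filter fun u => (u, y + n + 1) ∈ B).card := by
  have h1 : hits B y R (n + 1) = hits B y R n ∪
      ((nb (rch B y R n)).filter fun u => (u, y + n + 1) ∈ B).image (fun u => (u, y + n + 1)) := by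
    ext v
    simp only [hits, mem_union, mem_filter, mem_image]
    constructor
    · rintro ⟨hB, h1, h2, h3⟩
      by_cases h4 : v.2 ≤ y + n
      · exact Or.inl ⟨hB, h1, h4, h3⟩
      · have h5 : v.2 = y + n + 1 := by omega
        have h6 : v.2 - y - 1 = n := by omega
        rw [h6] at h3
        have h7 : (v.1, y + n + 1) = v := Prod.ext rfl h5.symm
        exact Or.inr ⟨v.1, ⟨h3, by rw [h7]; exact hB⟩, h7⟩
    · rintro (⟨hB, h1, h2, h3⟩ | ⟨u, ⟨h1, h2⟩, rfl⟩)
      · exact ⟨hB, h1, by omega, h3⟩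
      · refine ⟨h2, by show y < y + n + 1; omega, by show y + n + 1 ≤ _; omega, ?_⟩
        have h6 : y + n + 1 - y - 1 = n := by omega
        show u ∈ nb (rch B y R (y + n + 1 - y - 1))
        rw [h6]
        exact h1
  rw [h1, card_union_of_disjoint, card_image_of_injective]
  · intro u w huw
    exact congrArg Prod.fst huw
  · refine disjoint_left.2 fun v hv hv' => ?_
    obtain ⟨u, -, rfl⟩ := mem_image.1 hv'
    have h2 : y + n + 1 ≤ y + n := (mem_filter.1 hv).2.2.1
    omega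

/-- the growth identity -/
lemma growth (B : Finset Vx) (y : ℕ) (R : Finset ℕ) (N : ℕ) :
    (rch B y R N).card + (hits B y R N).card = R.card + ∑ n ∈ range N, cc (rch B y R n) := by
  induction N with
  | zero =>
    have : hits B y R 0 = ∅ := by
      rw [hits, filter_eq_empty_iff]
      intro v _ h
      omega
    simp [this]
  | succ n ih =>
    have h1 : (rch B y R (n + 1)).card +
        ((nb (rch B y R n)).filter fun u => (u, y + n + 1) ∈ B).card =
        (rch B y R n).card + cc (rch B y R n) := by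
      rw [← card_nb, rch_succ, stp, add_comm]
      exact card_filter_add_card_filter_not (s := nb (rch B y R n))
        (fun u => (u, y + n + 1) ∈ B)
    rw [hits_succ, sum_range_succ]
    omega

lemma growth_ge {B : Finset Vx} {y : ℕ} {R : Finset ℕ} {N : ℕ}
    (h : ∀ n < N, (rch B y R n).Nonempty) :
    R.card + N ≤ (rch B y R N).card + (hits B y R N).card := by
  rw [growth]
  have h1 : ∑ n ∈ range N, 1 ≤ ∑ n ∈ range N, cc (rch B y R n) :=
    sum_le_sum fun n hn => cc_pos (h n (mem_range.1 hn))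
  simp only [sum_const, card_range, smul_eq_mul, mul_one] at h1
  omega

/-! ### Enclosed vertices -/

/-- the vertex `v` is enclosed by `B`: no infinite path from `v` avoids `B` -/
def Und (B : Finset Vx) (v : Vx) : Prop := ∃ n, rch B v.2 {v.1} n = ∅

/-- all the vertices of row `y` with columns in `S` are enclosed -/
def Dead (B : Finset Vx) (y : ℕ) (S : Finset ℕ) : Prop := ∀ u ∈ S, Und B (u, y)

lemma dead_iff {B : Finset Vx} {y : ℕ} {S : Finset ℕ} : Dead B y S ↔ ∃ n, rch B y S n = ∅ := by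
  constructor
  · intro h
    induction S using Finset.induction_on with
    | empty => exact ⟨0, rfl⟩
    | insert a S ha ih =>
      obtain ⟨n, hn⟩ := ih fun u hu => h u (mem_insert_of_mem hu)
      obtain ⟨m, hm⟩ := h a (mem_insert_self _ _)
      refine ⟨max m n, ?_⟩
      rw [insert_eq, rch_union]
      have h1 := rch_eq_empty_of_le (le_max_left m n) hm
      have h2 := rch_eq_empty_of_le (le_max_right m n) hn
      simp only at h1
      rw [h1, h2, union_empty]
  · rintro ⟨n, hn⟩ u hu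
    refine ⟨n, subset_empty.1 ?_⟩
    rw [← hn]
    exact rch_mono (singleton_subset_iff.2 hu) n

lemma Dead.mono {B : Finset Vx} {y : ℕ} {S T : Finset ℕ} (h : Dead B y T) (hST : S ⊆ T) :
    Dead B y S := fun u hu => h u (hST hu)

lemma und_iff_children {B : Finset Vx} {u y : ℕ} :
    Und B (u, y) ↔ ((u, y + 1) ∈ B ∨ Und B (u, y + 1)) ∧
      ((u + 1, y + 1) ∈ B ∨ Und B (u + 1, y + 1)) := by
  have key : Und B (u, y) ↔ Dead B (y + 1) (stp B y {u}) := by
    rw [dead_iff]
    constructor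
    · rintro ⟨n, hn⟩
      refine ⟨n, ?_⟩
      have h1 := rch_add B y {u} 1 n
      have h2 : rch B y {u} 1 = stp B y {u} := rfl
      rw [← h2, ← h1]
      exact rch_eq_empty_of_le (by omega) hn
    · rintro ⟨n, hn⟩
      refine ⟨1 + n, ?_⟩
      have h1 := rch_add B y {u} 1 n
      have h2 : rch B y {u} 1 = stp B y {u} := rfl
      rw [← h2] at hn
      exact h1.trans hn
  rw [key]
  constructor
  · intro h
    constructor
    · by_cases h1 : (u, y + 1) ∈ B
      · exact Or.inl h1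
      · exact Or.inr (h u (mem_stp.2 ⟨Or.inl (mem_singleton_self _), h1⟩))
    · by_cases h1 : (u + 1, y + 1) ∈ B
      · exact Or.inl h1
      · exact Or.inr (h (u + 1) (mem_stp.2 ⟨Or.inr ⟨u, mem_singleton_self _, rfl⟩, h1⟩))
  · rintro ⟨h1, h2⟩ w hw
    obtain ⟨h3 | ⟨w', h3, rfl⟩, h4⟩ := mem_stp.1 hw
    · rw [mem_singleton] at h3
      subst h3
      exact h1.resolve_left h4
    · rw [mem_singleton] at h3
      subst h3
      exact h2.resolve_left h4

/-- reached vertices of an enclosed set are enclosed -/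
lemma Dead.rch {B : Finset Vx} {y : ℕ} {S : Finset ℕ} (h : Dead B y S) (n : ℕ) :
    Dead B (y + n) (rch B y S n) := by
  obtain ⟨m, hm⟩ := dead_iff.1 h
  refine dead_iff.2 ⟨m, ?_⟩
  rw [← rch_add]
  exact rch_eq_empty_of_le (by omega) hm

lemma und_congr {B B' : Finset Vx} {v : Vx} (h : ∀ w : Vx, v.2 < w.2 → (w ∈ B ↔ w ∈ B')) :
    Und B v ↔ Und B' v := by
  constructor
  · rintro ⟨n, hn⟩
    exact ⟨n, by rw [← hn]; exact rch_congr fun w h1 _ => (h w h1).symm⟩
  · rintro ⟨n, hn⟩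
    exact ⟨n, by rw [← hn]; exact rch_congr fun w h1 _ => h w h1⟩

lemma und_mono {B B' : Finset Vx} {v : Vx} (h : ∀ w ∈ B, v.2 < w.2 → w ∈ B') (hv : Und B v) :
    Und B' v := by
  obtain ⟨n, hn⟩ := hv
  refine ⟨n, subset_empty.1 ?_⟩
  rw [← hn]
  exact rch_sub fun w hw h1 _ => h w hw h1

/-- an infinite path avoiding `B` from a vertex which is not enclosed -/
lemma exists_path {B : Finset Vx} {u y : ℕ} (h : ¬ Und B (u, y)) :
    ∃ f : ℕ → ℕ, f 0 = u ∧ (∀ N, IsPath B y f N) ∧ ∀ n, ¬ Und B (f n, y + n) := by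
  classical
  have hstep : ∀ v : Vx, ¬ Und B v → ∃ w : ℕ, (w = v.1 ∨ w = v.1 + 1) ∧ (w, v.2 + 1) ∉ B ∧
      ¬ Und B (w, v.2 + 1) := by
    rintro ⟨u, y⟩ hv
    rw [und_iff_children, not_and_or, not_or, not_or] at hv
    rcases hv with hv | hv
    · exact ⟨u, Or.inl rfl, hv.1, hv.2⟩
    · exact ⟨u + 1, Or.inr rfl, hv.1, hv.2⟩
  choose! nxt hn1 hn2 hn3 using hstep
  let f : ℕ → ℕ := fun n => Nat.rec u (fun n w => nxt (w, y + n)) n
  have hf : ∀ n, f (n + 1) = nxt (f n, y + n) := fun n => rfl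
  have hU : ∀ n, ¬ Und B (f n, y + n) := by
    intro n
    induction n with
    | zero => exact h
    | succ n ih =>
      have h1 := hn3 _ ih
      rw [← hf] at h1
      exact h1
  refine ⟨f, rfl, fun N n _ => ?_, hU⟩
  have h1 := hn1 _ (hU n)
  have h2 := hn2 _ (hU n)
  rw [← hf] at h1 h2
  exact ⟨h1, h2⟩

lemma not_und_of_path {B : Finset Vx} {y : ℕ} {f : ℕ → ℕ} (hf : ∀ N, IsPath B y f N) :
    ¬ Und B (f 0, y) := by
  rintro ⟨n, hn⟩
  have h1 := (hf n).mem_rch_zero (mem_singleton_self (f 0)) le_rfl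
  simp only at hn
  rw [hn] at h1
  exact notMem_empty _ h1

/-- the column of an enclosed vertex is blocked above it -/
lemma und_col {B : Finset Vx} {u y : ℕ} (h : Und B (u, y)) : ∃ y', y < y' ∧ (u, y') ∈ B := by
  by_contra hcon
  push Not at hcon
  exact not_und_of_path (B := B) (y := y) (f := fun _ => u)
    (fun N n _ => ⟨Or.inl rfl, hcon _ (by omega)⟩) h

/-- downward induction on the rows -/
lemma down_induct {P : Vx → Prop} (M : ℕ) (h0 : ∀ v : Vx, M ≤ v.2 → P v)
    (hs : ∀ u y, P (u, y + 1) → P (u + 1, y + 1) → P (u, y)) : ∀ v, P v := by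
  have key : ∀ k u y, M ≤ y + k → P (u, y) := by
    intro k
    induction k with
    | zero => exact fun u y h => h0 _ h
    | succ k ih => exact fun u y h => hs u y (ih _ _ (by omega)) (ih _ _ (by omega))
  exact fun v => key M v.1 v.2 (by omega)

lemma exists_row_bound (B : Finset Vx) : ∃ M, ∀ v ∈ B, v.2 < M := by
  refine ⟨B.sup Prod.snd + 1, fun v hv => ?_⟩
  have : v.2 ≤ B.sup Prod.snd := le_sup (f := Prod.snd) hv
  omega

/-- a finite set of vertices whose children lie in the set or in `B` is enclosed -/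
lemma und_of_closed {B W : Finset Vx}
    (h : ∀ u y, (u, y) ∈ W → ((u, y + 1) ∈ B ∨ (u, y + 1) ∈ W) ∧
      ((u + 1, y + 1) ∈ B ∨ (u + 1, y + 1) ∈ W)) : ∀ v ∈ W, Und B v := by
  obtain ⟨M, hM⟩ := exists_row_bound W
  refine down_induct (P := fun v => v ∈ W → Und B v) M
    (fun v hv hW => absurd (hM v hW) (by omega)) fun u y h1 h2 hW => ?_
  rw [und_iff_children]
  obtain ⟨h3, h4⟩ := h u y hW
  exact ⟨h3.imp id h1, h4.imp id h2⟩

/-- enclosed members of `B` above row `r` may be dropped -/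
lemma und_drop {B B' : Finset Vx} {r : ℕ} (hB : ∀ v ∈ B, r < v.2 → v ∉ B' → Und B v) {v : Vx}
    (hr : r ≤ v.2) (hv : Und B v) : Und B' v := by
  obtain ⟨M, hM⟩ := exists_row_bound B
  revert hr hv
  refine down_induct (P := fun v => r ≤ v.2 → Und B v → Und B' v) M (fun v hv _ hU => ?_)
    (fun u y h1 h2 hr hU => ?_) v
  · obtain ⟨y', h1, h2⟩ := und_col (u := v.1) (y := v.2) hU
    have := hM _ h2
    simp only at this
    omega
  · simp only at hr h1 h2
    rw [und_iff_children] at hU ⊢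
    have key : ∀ w : Vx, r < w.2 → (w ∈ B ∨ Und B w) → (Und B w → Und B' w) →
        (w ∈ B' ∨ Und B' w) := by
      intro w hrw hw hi
      by_cases hw' : w ∈ B'
      · exact Or.inl hw'
      · rcases hw with hw | hw
        · exact Or.inr (hi (hB w hw hrw hw'))
        · exact Or.inr (hi hw)
    exact ⟨key _ (by show r < y + 1; omega) hU.1 (h1 (by omega)),
      key _ (by show r < y + 1; omega) hU.2 (h2 (by omega))⟩

/-- a set of columns containing all the enclosed vertices of the rows `≥ ρ` -/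
lemma und_finite (B : Finset Vx) : ∃ W : Finset Vx, ∀ v, Und B v → v ∈ W := by
  obtain ⟨M, hM⟩ := exists_row_bound B
  refine ⟨B.image Prod.fst ×ˢ range M, fun v hv => ?_⟩
  obtain ⟨y', h1, h2⟩ := und_col (u := v.1) (y := v.2) hv
  have h3 := hM _ h2
  simp only at h3
  exact mem_product.2 ⟨mem_image.2 ⟨_, h2, rfl⟩, mem_range.2 (by omega)⟩

/-! ### Admissible sets and robust replacement -/

/-- the number of members of `C` in the rows `≤ h` -/
def cnt (C : Finset Vx) (h : ℕ) : ℕ := (C.filter fun v => v.2 ≤ h).card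

lemma cnt_mono_set {C C' : Finset Vx} (h : C ⊆ C') (k : ℕ) : cnt C k ≤ cnt C' k :=
  card_le_card (filter_subset_filter _ h)

lemma cnt_mono {C : Finset Vx} {h k : ℕ} (hk : h ≤ k) : cnt C h ≤ cnt C k :=
  card_le_card fun v hv => by
    obtain ⟨h1, h2⟩ := mem_filter.1 hv
    exact mem_filter.2 ⟨h1, h2.trans hk⟩

lemma cnt_le_card (C : Finset Vx) (h : ℕ) : cnt C h ≤ C.card := card_filter_le _ _

lemma card_le_of_cnt_le {C C' : Finset Vx} (h : ∀ k, cnt C' k ≤ cnt C k) : C'.card ≤ C.card := by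
  obtain ⟨M, hM⟩ := exists_row_bound C'
  have h1 : cnt C' M = C'.card := by
    rw [cnt, filter_true_of_mem fun v hv => (hM v hv).le]
  rw [← h1]
  exact (h M).trans (cnt_le_card _ _)

/-- `C` lies above row `ρ` and has at most `s` members in the first `s` rows above `ρ`, for
`s ≤ Y` -/
def Adm (Y ρ : ℕ) (C : Finset Vx) : Prop :=
  (∀ c ∈ C, ρ < c.2) ∧ ∀ s ≤ Y, cnt C (ρ + s) ≤ s

lemma Adm.of_cnt_le {Y ρ : ℕ} {C C' : Finset Vx} (h : Adm Y ρ C) (h0 : ∀ c ∈ C', ρ < c.2)
    (hc : ∀ k, cnt C' k ≤ cnt C k) : Adm Y ρ C' :=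
  ⟨h0, fun s hs => (hc _).trans (h.2 s hs)⟩

/-- in row `ρ` the columns `X` may replace the columns `T`: future deletions `C` which enclose `X`
can be replaced by future deletions `C'`, levelwise not more, which enclose `T` -/
def Robust (Y : ℕ) (D : Finset Vx) (ρ : ℕ) (X T : Finset ℕ) : Prop :=
  ∀ C, Adm Y ρ C → Dead (D ∪ C) ρ X → ∃ C', (∀ c ∈ C', ρ < c.2) ∧ (∀ k, cnt C' k ≤ cnt C k) ∧
    Dead (D ∪ C') ρ T ∧ (∀ w : Vx, ρ ≤ w.2 → Und (D ∪ C) w → Und (D ∪ C') w) ∧
    ∀ c : Vx, ρ + Y < c.2 → (c ∈ C' ↔ c ∈ C)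

lemma robust_of_subset {Y : ℕ} {D : Finset Vx} {ρ : ℕ} {X T : Finset ℕ} (h : T ⊆ X) :
    Robust Y D ρ X T := fun C hC hX =>
  ⟨C, hC.1, fun _ => le_rfl, hX.mono h, fun _ _ => id, fun _ _ => Iff.rfl⟩

lemma Robust.mono {Y : ℕ} {D : Finset Vx} {ρ : ℕ} {X X' T : Finset ℕ} (h : Robust Y D ρ X T)
    (hX : X ⊆ X') : Robust Y D ρ X' T := fun C hC hX' => h C hC (hX'.mono hX)

lemma Robust.union {Y : ℕ} {D : Finset Vx} {ρ : ℕ} {X X' T T' : Finset ℕ}
    (h : Robust Y D ρ X T) (h' : Robust Y D ρ X' T') : Robust Y D ρ (X ∪ X') (T ∪ T') := by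
  intro C hC hX
  obtain ⟨C1, a1, a2, a3, a4, a5⟩ := h C hC (hX.mono subset_union_left)
  obtain ⟨C2, b1, b2, b3, b4, b5⟩ := h' C1 (hC.of_cnt_le a1 a2)
    fun u hu => a4 _ le_rfl (hX u (mem_union_right _ hu))
  refine ⟨C2, b1, fun k => (b2 k).trans (a2 k), fun u hu => ?_,
    fun w hw h => b4 w hw (a4 w hw h), fun c hc => (b5 c hc).trans (a5 c hc)⟩
  rcases mem_union.1 hu with h1 | h1
  · exact b4 _ le_rfl (a3 u h1)
  · exact b3 u h1

lemma robust_biUnion {Y : ℕ} {D : Finset Vx} {ρ : ℕ} {ι : Type} [DecidableEq ι] (I : Finset ι)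
    {X T : ι → Finset ℕ} (h : ∀ i ∈ I, Robust Y D ρ (X i) (T i)) :
    Robust Y D ρ (I.biUnion X) (I.biUnion T) := by
  induction I using Finset.induction_on with
  | empty => exact robust_of_subset Subset.rfl
  | insert a I ha ih =>
    rw [biUnion_insert, biUnion_insert]
    exact (h a (mem_insert_self _ _)).union (ih fun i hi => h i (mem_insert_of_mem hi))

end Pool.Agent.Lib.MP_24b7a7_co
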