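import Pool.Agent.Lib.MP_24b7a7_co.Thin

/-!
MP_24b7a7_co: basis lanes. The value `val D ρ Y A` is the least cost of a region of height `Y`:
the number of its undeleted boundary vertices plus the number of columns of `A` which it misses.
A set `T` may be replaced by a subset with at most `val D ρ Y T` members.
-/

set_option autoImplicit false

namespace Pool.Agent.Lib.MP_24b7a7_co

open Finset

/-- the children of the members of `W` -/
def chd (W : Finset Vx) : Finset Vx :=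
  W.image (fun v => (v.1, v.2 + 1)) ∪ W.image (fun v => (v.1 + 1, v.2 + 1))

lemma mem_chd {W : Finset Vx} {v : Vx} :
    v ∈ chd W ↔ ∃ w ∈ W, (v.1 = w.1 ∨ v.1 = w.1 + 1) ∧ v.2 = w.2 + 1 := by
  simp only [chd, mem_union, mem_image]
  constructor
  · rintro (⟨w, hw, rfl⟩ | ⟨w, hw, rfl⟩)
    · exact ⟨w, hw, Or.inl rfl, rfl⟩
    · exact ⟨w, hw, Or.inr rfl, rfl⟩
  · rintro ⟨w, hw, h1 | h1, h2⟩
    · exact Or.inl ⟨w, hw, Prod.ext h1.symm h2.symm⟩
    · exact Or.inr ⟨w, hw, Prod.ext h1.symm h2.symm⟩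

/-- the undeleted boundary of `W` -/
def bd (D W : Finset Vx) : Finset Vx := (chd W).filter fun v => v ∉ W ∧ v ∉ D

lemma mem_bd {D W : Finset Vx} {v : Vx} :
    v ∈ bd D W ↔ (∃ w ∈ W, (v.1 = w.1 ∨ v.1 = w.1 + 1) ∧ v.2 = w.2 + 1) ∧ v ∉ W ∧ v ∉ D := by
  rw [bd, mem_filter, mem_chd]

/-- cost of a region -/
def cost (D : Finset Vx) (ρ : ℕ) (A : Finset ℕ) (W : Finset Vx) : ℕ :=
  (bd D W).card + (A.filter fun a => (a, ρ) ∉ W).card

/-- `W` lies in the rows `[ρ, ρ + Y)` -/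
def Reg (Y ρ : ℕ) (W : Finset Vx) : Prop := ∀ w ∈ W, ρ ≤ w.2 ∧ w.2 < ρ + Y

/-- the least cost of a region -/
noncomputable def val (D : Finset Vx) (ρ Y : ℕ) (A : Finset ℕ) : ℕ :=
  sInf {m | ∃ W, Reg Y ρ W ∧ cost D ρ A W = m}

lemma val_le {D : Finset Vx} {ρ Y : ℕ} {A : Finset ℕ} {W : Finset Vx} (hW : Reg Y ρ W) :
    val D ρ Y A ≤ cost D ρ A W := Nat.sInf_le ⟨W, hW, rfl⟩

lemma exists_opt (D : Finset Vx) (ρ Y : ℕ) (A : Finset ℕ) :
    ∃ W, Reg Y ρ W ∧ cost D ρ A W = val D ρ Y A :=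
  Nat.sInf_mem (s := {m | ∃ W, Reg Y ρ W ∧ cost D ρ A W = m})
    ⟨_, ∅, fun _ hw => absurd hw (notMem_empty _), rfl⟩

lemma cost_mono {D : Finset Vx} {ρ : ℕ} {A A' : Finset ℕ} (h : A ⊆ A') (W : Finset Vx) :
    cost D ρ A W ≤ cost D ρ A' W :=
  Nat.add_le_add_left (card_le_card (filter_subset_filter _ h)) _

lemma val_mono {D : Finset Vx} {ρ Y : ℕ} {A A' : Finset ℕ} (h : A ⊆ A') :
    val D ρ Y A ≤ val D ρ Y A' := by
  obtain ⟨W, hW, hc⟩ := exists_opt D ρ Y A'
  rw [← hc]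
  exact (val_le hW).trans (cost_mono h W)

lemma val_le_card (D : Finset Vx) (ρ Y : ℕ) (A : Finset ℕ) : val D ρ Y A ≤ A.card := by
  refine (val_le (W := ∅) fun _ hw => absurd hw (notMem_empty _)).trans ?_
  have h1 : bd D ∅ = ∅ := rfl
  rw [cost, h1, card_empty, zero_add]
  exact card_filter_le _ _

lemma four_sets {α : Type} [DecidableEq α] {P Q X X' : Finset α} (h1 : P ⊆ X ∪ X')
    (h2 : Q ⊆ X ∪ X') (h3 : P ∩ Q ⊆ X ∩ X') : P.card + Q.card ≤ X.card + X'.card := by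
  rw [← card_union_add_card_inter P Q, ← card_union_add_card_inter X X']
  exact add_le_add (card_le_card (union_subset h1 h2)) (card_le_card h3)

lemma bd_submod (D W W' : Finset Vx) (p : Vx → Prop) [DecidablePred p] :
    ((bd D (W ∪ W')).filter p).card + ((bd D (W ∩ W')).filter p).card ≤
      ((bd D W).filter p).card + ((bd D W').filter p).card := by
  refine four_sets ?_ ?_ ?_
  · intro v hv
    obtain ⟨h1, hp⟩ := mem_filter.1 hv
    obtain ⟨⟨w, hw, hvw⟩, h2, h3⟩ := mem_bd.1 h1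
    rw [mem_union, not_or] at h2
    rcases mem_union.1 hw with h | h
    · exact mem_union_left _ (mem_filter.2 ⟨mem_bd.2 ⟨⟨w, h, hvw⟩, h2.1, h3⟩, hp⟩)
    · exact mem_union_right _ (mem_filter.2 ⟨mem_bd.2 ⟨⟨w, h, hvw⟩, h2.2, h3⟩, hp⟩)
  · intro v hv
    obtain ⟨h1, hp⟩ := mem_filter.1 hv
    obtain ⟨⟨w, hw, hvw⟩, h2, h3⟩ := mem_bd.1 h1
    obtain ⟨hw1, hw2⟩ := mem_inter.1 hw
    by_cases h4 : v ∈ W
    · have h5 : v ∉ W' := fun h5 => h2 (mem_inter.2 ⟨h4, h5⟩)
      exact mem_union_right _ (mem_filter.2 ⟨mem_bd.2 ⟨⟨w, hw2, hvw⟩, h5, h3⟩, hp⟩)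
    · exact mem_union_left _ (mem_filter.2 ⟨mem_bd.2 ⟨⟨w, hw1, hvw⟩, h4, h3⟩, hp⟩)
  · intro v hv
    obtain ⟨hv1, hv2⟩ := mem_inter.1 hv
    obtain ⟨h1, hp⟩ := mem_filter.1 hv1
    obtain ⟨-, h2, h3⟩ := mem_bd.1 h1
    rw [mem_union, not_or] at h2
    obtain ⟨⟨w, hw, hvw⟩, -, -⟩ := mem_bd.1 (mem_filter.1 hv2).1
    obtain ⟨hw1, hw2⟩ := mem_inter.1 hw
    exact mem_inter.2 ⟨mem_filter.2 ⟨mem_bd.2 ⟨⟨w, hw1, hvw⟩, h2.1, h3⟩, hp⟩,
      mem_filter.2 ⟨mem_bd.2 ⟨⟨w, hw2, hvw⟩, h2.2, h3⟩, hp⟩⟩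

lemma cost_submod (D : Finset Vx) (ρ : ℕ) (A : Finset ℕ) (W W' : Finset Vx) :
    cost D ρ A (W ∪ W') + cost D ρ A (W ∩ W') ≤ cost D ρ A W + cost D ρ A W' := by
  have h1 := bd_submod D W W' fun _ => True
  simp only [filter_true] at h1
  have h2 : (A.filter fun a => (a, ρ) ∉ W ∪ W').card + (A.filter fun a => (a, ρ) ∉ W ∩ W').card ≤
      (A.filter fun a => (a, ρ) ∉ W).card + (A.filter fun a => (a, ρ) ∉ W').card := by
    refine four_sets ?_ ?_ ?_
    · intro a ha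
      simp only [mem_filter, mem_union, not_or] at ha ⊢
      exact Or.inl ⟨ha.1, ha.2.1⟩
    · intro a ha
      simp only [mem_filter, mem_union, mem_inter, not_and_or] at ha ⊢
      exact ha.2.imp (fun h => ⟨ha.1, h⟩) fun h => ⟨ha.1, h⟩
    · intro a ha
      simp only [mem_filter, mem_union, mem_inter, not_or] at ha ⊢
      exact ⟨⟨ha.1.1, ha.1.2.1⟩, ha.1.1, ha.1.2.2⟩
  simp only [cost]
  omega

lemma exists_min_card {α : Type} {P : Finset α → Prop} (h : ∃ V, P V) :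
    ∃ V, P V ∧ ∀ V', P V' → V.card ≤ V'.card := by
  classical
  have h' : ∃ n, ∃ V, P V ∧ V.card = n := by
    obtain ⟨V, hV⟩ := h
    exact ⟨_, V, hV, rfl⟩
  obtain ⟨V, hV, hVc⟩ := Nat.find_spec h'
  exact ⟨V, hV, fun V' hV' => hVc.le.trans (Nat.find_min' h' ⟨V', hV', rfl⟩)⟩

/-- a subset of `T` with the same value and with at most `val` members -/
lemma exists_basis (D : Finset Vx) (ρ Y : ℕ) (T : Finset ℕ) :
    ∃ A ⊆ T, val D ρ Y A = val D ρ Y T ∧ A.card ≤ val D ρ Y T := by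
  classical
  obtain ⟨A, ⟨hAT, hAv⟩, hAmin⟩ := exists_min_card
    (P := fun A => A ⊆ T ∧ val D ρ Y A = val D ρ Y T) ⟨T, Subset.rfl, rfl⟩
  refine ⟨A, hAT, hAv, ?_⟩
  obtain ⟨V, ⟨hV, hVc⟩, hVmin⟩ := exists_min_card
    (P := fun V => Reg Y ρ V ∧ cost D ρ A V = val D ρ Y A) (exists_opt D ρ Y A)
  have key : ∀ a ∈ A, (a, ρ) ∉ V := by
    intro a ha haV
    obtain ⟨W, hW, hWc⟩ := exists_opt D ρ Y (A.erase a)
    have h1 : val D ρ Y (A.erase a) < val D ρ Y A := by
      refine lt_of_le_of_ne (val_mono (erase_subset _ _)) fun h => ?_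
      have h2 := hAmin (A.erase a) ⟨(erase_subset _ _).trans hAT, h.trans hAv⟩
      rw [card_erase_of_mem ha] at h2
      have := card_pos.2 ⟨a, ha⟩
      omega
    have h2 : val D ρ Y A ≤ cost D ρ A W := val_le hW
    have h3 : cost D ρ A W ≤ cost D ρ (A.erase a) W + 1 := by
      simp only [cost]
      have h4 : (A.filter fun b => (b, ρ) ∉ W) ⊆
          insert a ((A.erase a).filter fun b => (b, ρ) ∉ W) := by
        intro b hb
        obtain ⟨h5, h6⟩ := mem_filter.1 hb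
        by_cases h7 : b = a
        · exact mem_insert.2 (Or.inl h7)
        · exact mem_insert_of_mem (mem_filter.2 ⟨mem_erase.2 ⟨h7, h5⟩, h6⟩)
      have h5 := (card_le_card h4).trans (card_insert_le _ _)
      omega
    have haW : (a, ρ) ∉ W := by
      intro haW
      have h4 : cost D ρ A W = cost D ρ (A.erase a) W := by
        simp only [cost]
        congr 2
        ext b
        simp only [mem_filter, mem_erase]
        constructor
        · rintro ⟨h5, h6⟩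
          exact ⟨⟨fun h => h6 (h ▸ haW), h5⟩, h6⟩
        · rintro ⟨⟨-, h5⟩, h6⟩
          exact ⟨h5, h6⟩
      omega
    have h4 : cost D ρ A W = val D ρ Y A := by omega
    have h5 := cost_submod D ρ A V W
    have h6 : val D ρ Y A ≤ cost D ρ A (V ∪ W) := val_le fun w hw => by
      rcases mem_union.1 hw with h | h
      · exact hV w h
      · exact hW w h
    have h7 : Reg Y ρ (V ∩ W) := fun w hw => hV w (mem_inter.1 hw).1
    have h8 : val D ρ Y A ≤ cost D ρ A (V ∩ W) := val_le h7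
    have h9 := hVmin (V ∩ W) ⟨h7, by omega⟩
    have h10 : V ∩ W = V := eq_of_subset_of_card_le inter_subset_left h9
    rw [← h10] at haV
    exact haW (mem_inter.1 haV).2
  rw [← hAv, ← hVc, cost, filter_true_of_mem key]
  omega

/-- **Basis lanes.** -/
theorem basis (D : Finset Vx) (ρ Y : ℕ) (T : Finset ℕ) :
    ∃ X ⊆ T, X.card ≤ val D ρ Y T ∧ Robust Y D ρ X T := by
  classical
  obtain ⟨A, hAT, hAv, hAc⟩ := exists_basis D ρ Y T
  refine ⟨A, hAT, hAc, fun C hC hA => ?_⟩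
  obtain ⟨W0, hW0⟩ := und_finite (D ∪ C)
  set U := W0.filter fun v => ρ ≤ v.2 ∧ Und (D ∪ C) v with hU
  have memU : ∀ v : Vx, v ∈ U ↔ ρ ≤ v.2 ∧ Und (D ∪ C) v := fun v => by
    rw [hU, mem_filter]
    exact ⟨And.right, fun h => ⟨hW0 v h.2, h⟩⟩
  obtain ⟨V, hV, hVT⟩ := exists_opt D ρ Y T
  have h1 : val D ρ Y A ≤ cost D ρ A V := val_le hV
  have h2 : cost D ρ A V ≤ cost D ρ T V := cost_mono hAT V
  have hVA : cost D ρ A V = val D ρ Y A := by omega
  have hmiss : (A.filter fun a => (a, ρ) ∉ V) = T.filter fun a => (a, ρ) ∉ V := by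
    refine eq_of_subset_of_card_le (filter_subset_filter _ hAT) ?_
    have h3 : cost D ρ A V = cost D ρ T V := by omega
    simp only [cost] at h3
    omega
  have hchild : ∀ w ∈ U, ∀ v : Vx, (v.1 = w.1 ∨ v.1 = w.1 + 1) → v.2 = w.2 + 1 → v ∉ U → v ∉ D →
      v ∈ C := by
    intro w hw v hv1 hv2 hvU hvD
    obtain ⟨h3, h4⟩ := (memU w).1 hw
    have h5 : ((w.1, w.2 + 1) ∈ D ∪ C ∨ Und (D ∪ C) (w.1, w.2 + 1)) ∧
        ((w.1 + 1, w.2 + 1) ∈ D ∪ C ∨ Und (D ∪ C) (w.1 + 1, w.2 + 1)) :=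
      und_iff_children.1 h4
    have h6 : v ∈ D ∪ C ∨ Und (D ∪ C) v := by
      rcases hv1 with h | h
      · have : v = (w.1, w.2 + 1) := Prod.ext h hv2
        rw [this]
        exact h5.1
      · have : v = (w.1 + 1, w.2 + 1) := Prod.ext h hv2
        rw [this]
        exact h5.2
    rcases h6 with h6 | h6
    · exact (mem_union.1 h6).resolve_left hvD
    · exact absurd ((memU v).2 ⟨by omega, h6⟩) hvU
  set C' := (C.filter fun v => ρ + Y < v.2) ∪
    ((bd D (U ∪ V)).filter fun v => v.2 ≤ ρ + Y) with hC'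
  have hclosed : ∀ v ∈ U ∪ V, Und (D ∪ C') v := by
    have hch : ∀ w ∈ U ∪ V, ∀ v : Vx, (v.1 = w.1 ∨ v.1 = w.1 + 1) → v.2 = w.2 + 1 →
        (v ∈ D ∪ C' ∨ v ∈ U ∪ V) := by
      intro w hw v hv1 hv2
      by_cases h3 : v ∈ U ∪ V
      · exact Or.inr h3
      by_cases h4 : v ∈ D
      · exact Or.inl (mem_union_left _ h4)
      left
      refine mem_union_right _ ?_
      by_cases h5 : v.2 ≤ ρ + Y
      · exact mem_union_right _ (mem_filter.2 ⟨mem_bd.2 ⟨⟨w, hw, hv1, hv2⟩, h3, h4⟩, h5⟩)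
      · rcases mem_union.1 hw with h | h
        · refine mem_union_left _ (mem_filter.2 ⟨hchild w h v hv1 hv2 ?_ h4, by omega⟩)
          exact fun h6 => h3 (mem_union_left _ h6)
        · have := hV w h
          omega
    exact und_of_closed fun u y huy => ⟨hch _ huy (u, y + 1) (Or.inl rfl) rfl,
      hch _ huy (u + 1, y + 1) (Or.inr rfl) rfl⟩
  have hcount : ∀ k, ((bd D (U ∪ V)).filter fun v => v.2 ≤ k).card ≤ cnt C k := by
    intro k
    have h3 := bd_submod D U V fun v => v.2 ≤ k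
    have h4 : ((bd D U).filter fun v => v.2 ≤ k).card ≤ cnt C k := by
      refine card_le_card fun v hv => ?_
      obtain ⟨h5, h6⟩ := mem_filter.1 hv
      obtain ⟨⟨w, hw, hv1, hv2⟩, h7, h8⟩ := mem_bd.1 h5
      exact mem_filter.2 ⟨hchild w hw v hv1 hv2 h7 h8, h6⟩
    have h5 : ((bd D V).filter fun v => v.2 ≤ k).card ≤
        ((bd D (U ∩ V)).filter fun v => v.2 ≤ k).card := by
      set V' := V.filter fun w => w.2 < k → w ∈ U with hV'
      have h6 : val D ρ Y A ≤ cost D ρ A V' := val_le fun w hw => hV w (mem_filter.1 hw).1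
      have h7 : (A.filter fun a => (a, ρ) ∉ V') = A.filter fun a => (a, ρ) ∉ V := by
        ext a
        simp only [mem_filter, hV']
        constructor
        · rintro ⟨h8, h9⟩
          exact ⟨h8, fun h => h9 ⟨h, fun _ => (memU _).2 ⟨le_rfl, hA a h8⟩⟩⟩
        · rintro ⟨h8, h9⟩
          exact ⟨h8, fun h => h9 h.1⟩
      have h8 : (bd D V).card ≤ (bd D V').card := by
        have h9 := hVA
        simp only [cost] at h6 h9
        rw [h7] at h6
        omega
      have h9 : bd D V' ⊆ ((bd D (U ∩ V)).filter fun v => v.2 ≤ k) ∪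
          ((bd D V).filter fun v => ¬ v.2 ≤ k) := by
        intro v hv
        obtain ⟨⟨w, hw, hv1, hv2⟩, h10, h11⟩ := mem_bd.1 hv
        obtain ⟨hwV, hwU⟩ := mem_filter.1 hw
        by_cases h12 : v.2 ≤ k
        · refine mem_union_left _ (mem_filter.2 ⟨mem_bd.2 ⟨⟨w, mem_inter.2
            ⟨hwU (by omega), hwV⟩, hv1, hv2⟩, fun h => h10 ?_, h11⟩, h12⟩)
          obtain ⟨h13, h14⟩ := mem_inter.1 h
          exact mem_filter.2 ⟨h14, fun _ => h13⟩
        · refine mem_union_right _ (mem_filter.2 ⟨mem_bd.2 ⟨⟨w, hwV, hv1, hv2⟩,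
            fun h => h10 ?_, h11⟩, h12⟩)
          exact mem_filter.2 ⟨h, fun h13 => absurd h13 (by omega)⟩
      have h10 := (card_le_card h9).trans (card_union_le _ _)
      have h11 := card_filter_add_card_filter_not (s := bd D V) fun v => v.2 ≤ k
      omega
    omega
  refine ⟨C', ?_, ?_, ?_, ?_, ?_⟩
  · intro c hc
    rcases mem_union.1 hc with h | h
    · have := (mem_filter.1 h).2
      omega
    · obtain ⟨⟨w, hw, hv1, hv2⟩, -, -⟩ := mem_bd.1 (mem_filter.1 h).1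
      rcases mem_union.1 hw with h | h
      · have := ((memU w).1 h).1
        omega
      · have := (hV w h).1
        omega
  · intro k
    have h3 : (C'.filter fun v => v.2 ≤ k) ⊆ (C.filter fun v => ρ + Y < v.2 ∧ v.2 ≤ k) ∪
        ((bd D (U ∪ V)).filter fun v => v.2 ≤ min k (ρ + Y)) := by
      intro v hv
      obtain ⟨h4, h5⟩ := mem_filter.1 hv
      rcases mem_union.1 h4 with h | h
      · obtain ⟨h6, h7⟩ := mem_filter.1 h
        exact mem_union_left _ (mem_filter.2 ⟨h6, h7, h5⟩)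
      · obtain ⟨h6, h7⟩ := mem_filter.1 h
        exact mem_union_right _ (mem_filter.2 ⟨h6, le_min h5 h7⟩)
    have h4 := (card_le_card h3).trans (card_union_le _ _)
    have h5 := hcount (min k (ρ + Y))
    have h6 : (C.filter fun v => ρ + Y < v.2 ∧ v.2 ≤ k).card + cnt C (min k (ρ + Y)) ≤
        cnt C k := by
      rw [cnt, cnt, ← card_union_of_disjoint]
      · refine card_le_card fun v hv => ?_
        rcases mem_union.1 hv with h | h
        · obtain ⟨h7, h8⟩ := mem_filter.1 h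
          exact mem_filter.2 ⟨h7, h8.2⟩
        · obtain ⟨h7, h8⟩ := mem_filter.1 h
          exact mem_filter.2 ⟨h7, h8.trans (min_le_left _ _)⟩
      · refine disjoint_left.2 fun v hv hv' => ?_
        have h7 := (mem_filter.1 hv).2.1
        have h8 := ((mem_filter.1 hv').2).trans (min_le_right _ _)
        omega
    show (C'.filter fun v => v.2 ≤ k).card ≤ cnt C k
    omega
  · intro u hu
    refine hclosed _ ?_
    by_cases h3 : (u, ρ) ∈ V
    · exact mem_union_right _ h3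
    · have h4 : u ∈ T.filter fun a => (a, ρ) ∉ V := mem_filter.2 ⟨hu, h3⟩
      rw [← hmiss] at h4
      exact mem_union_left _ ((memU _).2 ⟨le_rfl, hA u (mem_filter.1 h4).1⟩)
  · exact fun w hw h => hclosed w (mem_union_left _ ((memU w).2 ⟨hw, h⟩))
  · intro c hc
    rw [hC', mem_union, mem_filter, mem_filter]
    constructor
    · rintro (h | h)
      · exact h.1
      · exact absurd h.2 (by omega)
    · exact fun h => Or.inl ⟨h, hc⟩

/-- **Closed lanes.** -/
lemma val_le_of_closed {D C : Finset Vx} {ρ Y l x : ℕ} {T : Finset ℕ} (hY : 0 < Y)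
    (hT : ∀ u ∈ T, l ≤ u ∧ u < l + x) (hc : rch (D ∪ C) ρ T Y = ∅) :
    val D ρ Y T ≤ (zone C ρ l x Y).card := by
  classical
  set W : Finset Vx := (range Y).biUnion fun n =>
    (rch (D ∪ C) ρ T n).image fun u => (u, ρ + n) with hW
  have memW : ∀ v : Vx, v ∈ W ↔ ∃ n < Y, v.1 ∈ rch (D ∪ C) ρ T n ∧ v.2 = ρ + n := by
    intro v
    rw [hW]
    simp only [mem_biUnion, mem_range, mem_image]
    constructor
    · rintro ⟨n, hn, u, hu, rfl⟩
      exact ⟨n, hn, hu, rfl⟩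
    · rintro ⟨n, hn, h1, h2⟩
      exact ⟨n, hn, v.1, h1, Prod.ext rfl h2.symm⟩
  have hb := rch_bounds (B := D ∪ C) (y := ρ) hT
  refine (val_le (W := W) fun w hw => ?_).trans ?_
  · obtain ⟨n, hn, -, h⟩ := (memW w).1 hw
    omega
  · have h1 : (T.filter fun a => (a, ρ) ∉ W) = ∅ := by
      rw [filter_eq_empty_iff]
      intro a ha
      rw [not_not]
      exact (memW _).2 ⟨0, hY, ha, rfl⟩
    rw [cost, h1, card_empty, add_zero]
    refine card_le_card fun v hv => ?_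
    obtain ⟨⟨w, hw, hv1, hv2⟩, hvW, hvD⟩ := mem_bd.1 hv
    obtain ⟨n, hn, hwn, hw2⟩ := (memW w).1 hw
    have h2 : v.2 = ρ + n + 1 := by omega
    have h3 : v = (v.1, ρ + n + 1) := Prod.ext rfl h2
    have h4 : v ∈ C := by
      by_contra hvC
      have h5 : v.1 ∈ rch (D ∪ C) ρ T (n + 1) := by
        refine mem_rch_succ.2 ⟨?_, ?_⟩
        · rcases hv1 with h | h
          · exact Or.inl (h ▸ hwn)
          · exact Or.inr ⟨w.1, hwn, h.symm⟩
        · rw [← h3, mem_union, not_or]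
          exact ⟨hvD, hvC⟩
      by_cases h6 : n + 1 < Y
      · exact hvW ((memW v).2 ⟨n + 1, h6, h5, by omega⟩)
      · have h7 : n + 1 = Y := by omega
        rw [h7, hc] at h5
        exact notMem_empty _ h5
    have h5 := hb n _ hwn
    exact mem_filter.2 ⟨h4, by omega, by omega, by omega, by omega⟩

end Pool.Agent.Lib.MP_24b7a7_co
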