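import Pool.Agent.Lib.MP_24b7a7_co.Select

/-!
MP_24b7a7_co: the backward induction. The rows are split into blocks; in the block `n` the lanes
have `x n` columns and the block has `2 * x n` rows.
-/

set_option autoImplicit false

namespace Pool.Agent.Lib.MP_24b7a7_co

open Finset

/-- a division of the rows into blocks -/
structure Blocks where
  /-- the first row of the block -/
  b : ℕ → ℕ
  /-- the width of the lanes -/
  x : ℕ → ℕ
  /-- the block of a row -/
  ix : ℕ → ℕ
  b0 : b 0 = 0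
  bs : ∀ n, b (n + 1) = b n + 2 * x n
  xpos : ∀ n, 0 < x n
  xmono : ∀ n, x n ≤ x (n + 1)
  lo : ∀ ρ, b (ix ρ) ≤ ρ
  hi : ∀ ρ, ρ < b (ix ρ + 1)

namespace Blocks

variable (K : Blocks)

lemma b_mono : Monotone K.b := monotone_nat_of_le_succ fun n => by
  rw [K.bs]
  omega

lemma x_mono : Monotone K.x := monotone_nat_of_le_succ K.xmono

lemma ix_eq {n ρ : ℕ} (h1 : K.b n ≤ ρ) (h2 : ρ < K.b (n + 1)) : K.ix ρ = n := by
  rcases lt_trichotomy (K.ix ρ) n with h | h | h
  · have h3 := K.b_mono (show K.ix ρ + 1 ≤ n from h)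
    have := K.hi ρ
    omega
  · exact h
  · have h3 := K.b_mono (show n + 1 ≤ K.ix ρ from h)
    have := K.lo ρ
    omega

lemma ix_mono : Monotone K.ix := by
  intro ρ σ h
  by_contra hcon
  push Not at hcon
  have h3 := K.b_mono (show K.ix σ + 1 ≤ K.ix ρ from hcon)
  have h1 := K.lo ρ
  have h2 := K.hi σ
  omega

/-- the width of the lanes in row `ρ` -/
def w (ρ : ℕ) : ℕ := K.x (K.ix ρ)

lemma w_mono : Monotone K.w := K.x_mono.comp K.ix_mono

lemma w_pos (ρ : ℕ) : 0 < K.w ρ := K.xpos _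

end Blocks

/-- a play which ends in row `T` -/
structure Play (K : Blocks) (T : ℕ) where
  /-- the deleted vertices after turn `t` -/
  D : ℕ → Finset Vx
  /-- the occupied columns of row `t` -/
  A : ℕ → Finset ℕ
  /-- the columns of row `t` which could be occupied -/
  S : ℕ → Finset ℕ
  D0 : D 0 = ∅
  Dsub : ∀ t, D t ⊆ D (t + 1)
  Dcard : ∀ t, (D (t + 1) \ D t).card ≤ 1
  S0 : S 0 = {0}
  Ssucc : ∀ t < T, S (t + 1) = stp (D (t + 1)) t (A t)
  AS : ∀ t < T, A t ⊆ S t
  Sne : ∀ t < T, (S t).Nonempty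
  ST : S T = ∅
  Req : ∀ t < T, rch (D t) t (A t) (2 * K.w t) = rch (D t) t (S t) (2 * K.w t)
  rob : ∀ t < T, Robust (2 * K.w t) (D t) t (A t) (S t) ∨
    198 * K.w t ^ 2 < weight (D t) t (K.w t) (S t)

/-- `C` is saturated in row `R` -/
def Sat (R : ℕ) (C : Finset Vx) : Prop :=
  ∀ c ∈ C, c.2 ≤ R → ∀ u, c.1 ≤ u → u ≤ c.1 + (R - c.2) → (u, R) ∈ C

/-- the vertices of row `R` in the cone above `c` -/
def coneR (R : ℕ) (c : Vx) : Finset Vx := (Icc c.1 (c.1 + (R - c.2))).image fun u => (u, R)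

lemma mem_coneR {R : ℕ} {c v : Vx} :
    v ∈ coneR R c ↔ v.2 = R ∧ c.1 ≤ v.1 ∧ v.1 ≤ c.1 + (R - c.2) := by
  simp only [coneR, mem_image, mem_Icc]
  constructor
  · rintro ⟨u, hu, rfl⟩
    exact ⟨rfl, hu⟩
  · rintro ⟨h1, h2⟩
    exact ⟨v.1, h2, Prod.ext rfl h1.symm⟩

lemma card_coneR_le (R : ℕ) (c : Vx) : (coneR R c).card ≤ R - c.2 + 1 := by
  refine card_image_le.trans ?_
  rw [Nat.card_Icc]
  omega

lemma IsPath.bounds {B : Finset Vx} {y : ℕ} {f : ℕ → ℕ} {N : ℕ} (hf : IsPath B y f N) {m n : ℕ}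
    (hmn : m ≤ n) (hn : n ≤ N) : f m ≤ f n ∧ f n ≤ f m + (n - m) := by
  induction n, hmn using Nat.le_induction with
  | base => omega
  | succ n hmn ih =>
    have h1 := ih (by omega)
    have h2 := (hf n (by omega)).1
    omega

/-- below a saturated row, a set reaching the same columns may replace a set -/
lemma sat_thin {D C : Finset Vx} {ρ R : ℕ} {A S : Finset ℕ} (hρ : ρ < R) (hsat : Sat R C)
    (he : rch D ρ A (R - ρ) = rch D ρ S (R - ρ)) (hA : Dead (D ∪ C) ρ A) :
    Dead (D ∪ C) ρ S := by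
  intro s hs
  by_contra hU
  obtain ⟨f, hf0, hf, hfU⟩ := exists_path hU
  obtain ⟨N, hN⟩ : ∃ N, N = R - ρ := ⟨_, rfl⟩
  have hfD : IsPath D ρ f N := fun n hn =>
    ⟨(hf N n hn).1, fun h => (hf N n hn).2 (mem_union_left _ h)⟩
  have h1 : f N ∈ rch D ρ S N := hfD.mem_rch_zero (by rw [hf0]; exact hs) le_rfl
  rw [← hN] at he
  rw [← he] at h1
  obtain ⟨g, hg0, hgN, hg⟩ := exists_path_of_mem_rch h1
  have hgC : IsPath (D ∪ C) ρ g N := by
    intro n hn
    refine ⟨(hg n hn).1, fun h => ?_⟩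
    rcases mem_union.1 h with h | h
    · exact (hg n hn).2 h
    · have h2 := hg.bounds (show n + 1 ≤ N by omega) le_rfl
      have h3 : (g N, R) ∈ C := hsat _ h (by show ρ + n + 1 ≤ R; omega) _ h2.1
        (by show g N ≤ g (n + 1) + (R - (ρ + n + 1)); omega)
      obtain ⟨M, hM⟩ : ∃ M, N = M + 1 := ⟨N - 1, by omega⟩
      have h4 := (hf N M (by omega)).2
      rw [hgN] at h3
      have h5 : ρ + M + 1 = R := by omega
      rw [h5, ← hM] at h4
      exact h4 (mem_union_right _ h3)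
  have h2 : g N ∈ rch (D ∪ C) ρ A N := hgC.mem_rch_zero hg0 le_rfl
  rw [hgN] at h2
  exact hfU N (hA.rch N _ h2)

section Step

variable {K : Blocks} {T : ℕ} (p : Play K T)

/-- the block `n` contains a heavy row -/
def Play.Bad (n : ℕ) : Prop :=
  ∃ t < T, K.ix t = n ∧ 198 * K.w t ^ 2 < weight (p.D t) t (K.w t) (p.S t)

open Classical in
/-- what is lost in row `ρ` -/
noncomputable def Play.loss (ρ : ℕ) : ℕ :=
  if p.Bad (K.ix ρ) then
    (if K.ix (ρ + 1) = K.ix ρ then 4 * K.w ρ else 2 * K.w ρ * (2 * K.w ρ + 1))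
  else 0

/-- the invariant of the backward induction -/
def Play.Inv (ρ : ℕ) (C : Finset Vx) : Prop :=
  Adm (2 * K.w ρ) ρ C ∧ Dead (p.D ρ ∪ C) ρ (p.S ρ) ∧
    (p.Bad (K.ix ρ) → Sat (K.b (K.ix ρ) + 4 * K.w ρ) C)

open Classical in
/-- the deletion made at turn `ρ + 1` if it is enclosed -/
noncomputable def Play.saved (ρ : ℕ) (C : Finset Vx) : Finset Vx :=
  (p.D (ρ + 1) \ p.D ρ).filter fun v => Und (p.D (ρ + 1) ∪ C) v

/-- the relation between consecutive sets of the backward induction -/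
def Play.Rel (ρ : ℕ) (C C' : Finset Vx) : Prop :=
  (∀ w : Vx, ρ ≤ w.2 → Und (p.D (ρ + 1) ∪ C) w → Und (p.D ρ ∪ C') w) ∧
  (∀ w : Vx, ρ + 4 * K.w ρ ≤ w.2 → Und (p.D ρ ∪ C') w → Und (p.D (ρ + 1) ∪ C) w) ∧
  C'.card + (p.saved ρ C).card ≤ C.card + 1 + p.loss ρ

theorem Play.step {ρ : ℕ} (hρ : ρ < T) {C : Finset Vx} (hC : p.Inv (ρ + 1) C) :
    ∃ C', p.Inv ρ C' ∧ p.Rel ρ C C' := by
  classical
  obtain ⟨hadm, hdead, hsat⟩ := hC
  set V := (p.D (ρ + 1) \ p.D ρ).filter fun v => ρ + 1 ≤ v.2 ∧ ¬ Und (p.D (ρ + 1) ∪ C) v with hV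
  have hVsub : V ⊆ p.D (ρ + 1) := fun v hv => (mem_sdiff.1 (mem_filter.1 hv).1).1
  have hVcard : V.card + (p.saved ρ C).card ≤ 1 := by
    refine le_trans ?_ (p.Dcard ρ)
    rw [← card_union_of_disjoint]
    · exact card_le_card (union_subset (filter_subset _ _) (filter_subset _ _))
    · exact disjoint_left.2 fun v hv hv' => (mem_filter.1 hv).2.2 (mem_filter.1 hv').2
  set C1 := C ∪ V with hC1
  have hwmono : K.w ρ ≤ K.w (ρ + 1) := K.w_mono (Nat.le_succ ρ)
  have hup : ∀ w : Vx, ρ ≤ w.2 → Und (p.D (ρ + 1) ∪ C) w → Und (p.D ρ ∪ C1) w := by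
    intro w hw hU
    refine und_drop (r := ρ) (fun v hv hρv hv' => ?_) hw hU
    rw [hC1, mem_union, mem_union, not_or, not_or] at hv'
    rcases mem_union.1 hv with h | h
    · by_contra hcon
      exact hv'.2.2 (mem_filter.2 ⟨mem_sdiff.2 ⟨h, hv'.1⟩, hρv, hcon⟩)
    · exact absurd h hv'.2.1
  have hdown : ∀ w : Vx, Und (p.D ρ ∪ C1) w → Und (p.D (ρ + 1) ∪ C) w := by
    intro w hU
    refine und_mono (fun v hv _ => ?_) hU
    rcases mem_union.1 hv with h | h
    · exact mem_union_left _ (p.Dsub ρ h)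
    · rcases mem_union.1 h with h | h
      · exact mem_union_right _ h
      · exact mem_union_left _ (hVsub h)
  have hA : Dead (p.D ρ ∪ C1) ρ (p.A ρ) := by
    intro u hu
    refine hup _ le_rfl ?_
    rw [und_iff_children]
    have key : ∀ v, (v ∈ p.A ρ ∨ ∃ w ∈ p.A ρ, w + 1 = v) →
        (v, ρ + 1) ∈ p.D (ρ + 1) ∪ C ∨ Und (p.D (ρ + 1) ∪ C) (v, ρ + 1) := by
      intro v hv
      by_cases h : (v, ρ + 1) ∈ p.D (ρ + 1)
      · exact Or.inl (mem_union_left _ h)
      · right
        refine hdead v ?_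
        rw [p.Ssucc ρ hρ, mem_stp]
        exact ⟨hv, h⟩
    exact ⟨key u (Or.inl hu), key (u + 1) (Or.inr ⟨u, hu, rfl⟩)⟩
  have hC1row : ∀ c ∈ C1, ρ < c.2 := by
    intro c hc
    rcases mem_union.1 hc with h | h
    · have := hadm.1 c h
      omega
    · have := (mem_filter.1 h).2.1
      omega
  have hadm1 : Adm (2 * K.w ρ) ρ C1 := by
    refine ⟨hC1row, fun s hs => ?_⟩
    rcases Nat.eq_zero_or_pos s with rfl | hs0
    · rw [cnt, nonpos_iff_eq_zero, card_eq_zero, filter_eq_empty_iff]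
      intro c hc
      have := hC1row c hc
      omega
    · obtain ⟨s', rfl⟩ : ∃ s', s = s' + 1 := ⟨s - 1, by omega⟩
      have h1 := hadm.2 s' (by omega)
      have h2 : cnt C1 (ρ + (s' + 1)) ≤ cnt C (ρ + 1 + s') + V.card := by
        have h3 : ρ + (s' + 1) = ρ + 1 + s' := by ring
        rw [h3, cnt, cnt, hC1, filter_union]
        exact (card_union_le _ _).trans (Nat.add_le_add_left (card_filter_le _ _) _)
      omega
  have hC1card : C1.card ≤ C.card + V.card := card_union_le _ _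
  by_cases hbad : p.Bad (K.ix ρ)
  · -- a bad block
    set R := K.b (K.ix ρ) + 4 * K.w ρ with hR
    have hlo := K.lo ρ
    have hhi := K.hi ρ
    rw [K.bs] at hhi
    have hwx : K.x (K.ix ρ) = K.w ρ := rfl
    rw [hwx] at hhi
    have hR1 : ρ + 2 * K.w ρ < R := by omega
    have hR2 : R ≤ ρ + 4 * K.w ρ := by omega
    set C' := C1 ∪ (C1.filter fun c => c.2 ≤ R).biUnion (coneR R) with hC'
    have hrow' : ∀ c ∈ C', c ∈ C1 ∨ c.2 = R := by
      intro c hc
      rcases mem_union.1 hc with h | h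
      · exact Or.inl h
      · obtain ⟨d, -, hd⟩ := mem_biUnion.1 h
        exact Or.inr (mem_coneR.1 hd).1
    have hsub : C1 ⊆ C' := subset_union_left
    have hsat' : Sat R C' := by
      intro c hc hcR u hu1 hu2
      rcases mem_union.1 hc with h | h
      · exact mem_union_right _ (mem_biUnion.2 ⟨c, mem_filter.2 ⟨h, hcR⟩,
          mem_coneR.2 ⟨rfl, hu1, hu2⟩⟩)
      · obtain ⟨d, hd, hcd⟩ := mem_biUnion.1 h
        have h1 := (mem_coneR.1 hcd).1
        have h2 : (u, R) = c := Prod.ext (by show u = c.1; omega) h1.symm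
        rw [h2]
        exact hc
    have hmono : ∀ w : Vx, Und (p.D ρ ∪ C1) w → Und (p.D ρ ∪ C') w := fun w hU =>
      und_mono (fun v hv _ => union_subset_union_right hsub hv) hU
    have hreq : rch (p.D ρ) ρ (p.A ρ) (R - ρ) = rch (p.D ρ) ρ (p.S ρ) (R - ρ) := by
      obtain ⟨k, hk⟩ : ∃ k, R - ρ = 2 * K.w ρ + k := ⟨R - ρ - 2 * K.w ρ, by omega⟩
      rw [hk, rch_add, rch_add, p.Req ρ hρ]
    refine ⟨C', ⟨⟨?_, ?_⟩, ?_, fun _ => hsat'⟩, ?_, ?_, ?_⟩
    · intro c hc
      rcases hrow' c hc with h | h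
      · exact hC1row c h
      · omega
    · intro s hs
      refine le_trans (card_le_card fun v hv => ?_) (hadm1.2 s hs)
      obtain ⟨h1, h2⟩ := mem_filter.1 hv
      rcases hrow' v h1 with h | h
      · exact mem_filter.2 ⟨h, h2⟩
      · omega
    · exact sat_thin (by omega) hsat' hreq fun u hu => hmono _ (hA u hu)
    · exact fun w hw hU => hmono w (hup w hw hU)
    · intro w hw hU
      refine hdown w ((und_congr fun v hv => ?_).1 hU)
      have h2 : v ∈ C' ↔ v ∈ C1 := by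
        refine ⟨fun h => ?_, fun h => hsub h⟩
        rcases hrow' v h with h1 | h1
        · exact h1
        · omega
      rw [mem_union, mem_union (s := p.D ρ), h2]
    · have hcone : ∀ c ∈ C1, (coneR R c).card ≤ R - ρ := by
        intro c hc
        have h1 := card_coneR_le R c
        have h2 := hC1row c hc
        by_cases h3 : c.2 ≤ R
        · omega
        · omega
      have hloss : p.loss ρ = if K.ix (ρ + 1) = K.ix ρ then 4 * K.w ρ
          else 2 * K.w ρ * (2 * K.w ρ + 1) := by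
        rw [Play.loss, if_pos hbad]
      by_cases hix : K.ix (ρ + 1) = K.ix ρ
      · rw [if_pos hix] at hloss
        have hw' : K.w (ρ + 1) = K.w ρ := by
          rw [Blocks.w, Blocks.w, hix]
        have hsatC : Sat R C := by
          rw [hix, hw'] at hsat
          exact hsat hbad
        have h1 : C' ⊆ C1 ∪ V.biUnion (coneR R) := by
          intro c hc
          rcases mem_union.1 hc with h | h
          · exact mem_union_left _ h
          · obtain ⟨d, hd, hcd⟩ := mem_biUnion.1 h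
            obtain ⟨hd1, hd2⟩ := mem_filter.1 hd
            rcases mem_union.1 hd1 with h2 | h2
            · obtain ⟨h3, h4, h5⟩ := mem_coneR.1 hcd
              have h6 := hsatC d h2 hd2 c.1 h4 h5
              have h7 : (c.1, R) = c := Prod.ext rfl h3.symm
              rw [h7] at h6
              exact mem_union_left _ (mem_union_left _ h6)
            · exact mem_union_right _ (mem_biUnion.2 ⟨d, h2, hcd⟩)
        have h2 : (V.biUnion (coneR R)).card ≤ V.card * (R - ρ) :=
          card_biUnion_le_card_mul _ _ _ fun c hc => hcone c (mem_union_right _ hc)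
        have h3 := (card_le_card h1).trans (card_union_le _ _)
        have h4 : V.card * (R - ρ) ≤ 4 * K.w ρ := by
          have h5 : V.card ≤ 1 := by omega
          calc V.card * (R - ρ) ≤ 1 * (4 * K.w ρ) := Nat.mul_le_mul h5 (by omega)
            _ = 4 * K.w ρ := one_mul _
        omega
      · rw [if_neg hix] at hloss
        have hR3 : R - ρ = 2 * K.w ρ + 1 := by
          have h1 : K.b (K.ix ρ + 1) ≤ ρ + 1 := by
            by_contra hcon
            exact hix (K.ix_eq (by omega) (by omega))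
          rw [K.bs, hwx] at h1
          omega
        have h1 : C' ⊆ C1 ∪ (C1.filter fun c => c.2 ≤ ρ + 2 * K.w ρ).biUnion (coneR R) := by
          intro c hc
          rcases mem_union.1 hc with h | h
          · exact mem_union_left _ h
          · obtain ⟨d, hd, hcd⟩ := mem_biUnion.1 h
            obtain ⟨hd1, hd2⟩ := mem_filter.1 hd
            by_cases h2 : d.2 ≤ ρ + 2 * K.w ρ
            · exact mem_union_right _ (mem_biUnion.2 ⟨d, mem_filter.2 ⟨hd1, h2⟩, hcd⟩)
            · obtain ⟨h3, h4, h5⟩ := mem_coneR.1 hcd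
              have h6 : c = d := Prod.ext (by omega) (by omega)
              rw [h6]
              exact mem_union_left _ hd1
        have h2 : ((C1.filter fun c => c.2 ≤ ρ + 2 * K.w ρ).biUnion (coneR R)).card ≤
            (C1.filter fun c => c.2 ≤ ρ + 2 * K.w ρ).card * (R - ρ) :=
          card_biUnion_le_card_mul _ _ _ fun c hc => hcone c (mem_filter.1 hc).1
        have h3 := (card_le_card h1).trans (card_union_le _ _)
        have h4 : (C1.filter fun c => c.2 ≤ ρ + 2 * K.w ρ).card * (R - ρ) ≤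
            2 * K.w ρ * (2 * K.w ρ + 1) := by
          rw [hR3]
          exact Nat.mul_le_mul_right _ (hadm1.2 _ le_rfl)
        omega
  · -- a good block
    have hrob : Robust (2 * K.w ρ) (p.D ρ) ρ (p.A ρ) (p.S ρ) := by
      rcases p.rob ρ hρ with h | h
      · exact h
      · exact absurd ⟨ρ, hρ, rfl, h⟩ hbad
    obtain ⟨C', a1, a2, a3, a4, a5⟩ := hrob C1 hadm1 hA
    refine ⟨C', ⟨hadm1.of_cnt_le a1 a2, a3, fun h => absurd h hbad⟩, ?_, ?_, ?_⟩
    · exact fun w hw hU => a4 w hw (hup w hw hU)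
    · intro w hw hU
      refine hdown w ((und_congr fun v hv => ?_).1 hU)
      rw [mem_union, mem_union, a5 v (by omega)]
    · have := card_le_of_cnt_le a2
      omega

/-- a sequence constructed backwards -/
lemma exists_chain {α : Type} {P : ℕ → α → Prop} {Q : ℕ → α → α → Prop} {T : ℕ} {a : α}
    (h0 : P T a) (hs : ∀ ρ < T, ∀ a, P (ρ + 1) a → ∃ a', P ρ a' ∧ Q ρ a a') :
    ∃ C : ℕ → α, C T = a ∧ (∀ ρ ≤ T, P ρ (C ρ)) ∧ ∀ ρ < T, Q ρ (C (ρ + 1)) (C ρ) := by
  classical
  have key : ∀ k ≤ T, ∃ C : ℕ → α, C T = a ∧ (∀ ρ ≤ T, T - k ≤ ρ → P ρ (C ρ)) ∧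
      ∀ ρ < T, T - k ≤ ρ → Q ρ (C (ρ + 1)) (C ρ) := by
    intro k
    induction k with
    | zero =>
      intro _
      refine ⟨fun _ => a, rfl, fun ρ h1 h2 => ?_, fun ρ h1 h2 => by omega⟩
      have : ρ = T := by omega
      rw [this]
      exact h0
    | succ k ih =>
      intro hk
      obtain ⟨C, h0, h1, h2⟩ := ih (by omega)
      obtain ⟨ρ, hρ⟩ : ∃ ρ, ρ = T - (k + 1) := ⟨_, rfl⟩
      obtain ⟨a', h3, h4⟩ := hs ρ (by omega) (C (ρ + 1)) (h1 _ (by omega) (by omega))
      refine ⟨Function.update C ρ a', by rw [Function.update_of_ne (by omega), h0],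
        fun σ h5 h6 => ?_, fun σ h5 h6 => ?_⟩
      · by_cases h7 : σ = ρ
        · rw [h7, Function.update_self]
          exact h3
        · rw [Function.update_of_ne h7]
          exact h1 σ h5 (by omega)
      · rw [Function.update_of_ne (show σ + 1 ≠ ρ by omega)]
        by_cases h7 : σ = ρ
        · rw [h7, Function.update_self]
          exact h4
        · rw [Function.update_of_ne h7]
          exact h2 σ h5 (by omega)
  obtain ⟨C, h0, h1, h2⟩ := key T le_rfl
  exact ⟨C, h0, fun ρ h => h1 ρ h (by omega), fun ρ h => h2 ρ h (by omega)⟩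

/-- the sets of the backward induction -/
theorem Play.exists_sets : ∃ C : ℕ → Finset Vx, C T = ∅ ∧ (∀ ρ ≤ T, p.Inv ρ (C ρ)) ∧
    ∀ ρ < T, p.Rel ρ (C (ρ + 1)) (C ρ) := by
  refine exists_chain (P := p.Inv) (Q := p.Rel) (a := ∅) ?_ fun ρ hρ C hC => p.step hρ hC
  refine ⟨⟨fun c hc => absurd hc (notMem_empty _), fun s _ => ?_⟩, ?_,
    fun _ c hc => absurd hc (notMem_empty _)⟩
  · rw [cnt, filter_empty, card_empty]
    exact Nat.zero_le _
  · rw [p.ST]
    exact fun u hu => absurd hu (notMem_empty _)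

end Step

end Pool.Agent.Lib.MP_24b7a7_co
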