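import Pool.Agent.Lib.MP_24b7a7_co.Chain

/-!
MP_24b7a7_co: what a heavy row costs Container.
-/

set_option autoImplicit false

namespace Pool.Agent.Lib.MP_24b7a7_co

open Finset

/-! ### Counting lemmas -/

lemma cover_card {I : Finset ℕ} {u x m : ℕ} (hx : 0 < x) :
    (I.filter fun i => i * x ≤ u ∧ u < i * x + m * x).card ≤ m := by
  have h : (I.filter fun i => i * x ≤ u ∧ u < i * x + m * x) ⊆ Ico (u / x + 1 - m) (u / x + 1) := by
    intro i hi
    obtain ⟨-, h1, h2⟩ := mem_filter.1 hi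
    have h3 : i ≤ u / x := (Nat.le_div_iff_mul_le hx).2 h1
    have h4 : u / x < i + m := (Nat.div_lt_iff_lt_mul hx).2 (by rw [add_mul]; exact h2)
    exact mem_Ico.2 (by omega)
  have h1 := card_le_card h
  rw [Nat.card_Ico] at h1
  omega

lemma sum_zone_le {F : Finset Vx} {τ x j : ℕ} {I : Finset ℕ} (hx : 0 < x) :
    ∑ i ∈ I, (zone F τ (i * x) x (j * x)).card ≤
      (j + 1) * (F.filter fun v => τ < v.2 ∧ v.2 ≤ τ + j * x).card := by
  have h1 : ∑ i ∈ I, (zone F τ (i * x) x (j * x)).card =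
      ∑ v ∈ F, (I.filter fun i => InZ τ (i * x) x (j * x) v).card := by
    simp only [zone, card_filter]
    exact sum_comm
  rw [h1, card_filter, mul_sum]
  refine sum_le_sum fun v _ => ?_
  split_ifs with hv
  · rw [mul_one]
    refine le_trans (card_le_card fun i hi => ?_) (cover_card (I := I) (u := v.1) (m := j + 1) hx)
    obtain ⟨h2, h3, h4, h5, h6⟩ := mem_filter.1 hi
    refine mem_filter.2 ⟨h2, h5, ?_⟩
    rw [add_mul, one_mul]
    omega
  · rw [mul_zero, nonpos_iff_eq_zero, card_eq_zero, filter_eq_empty_iff]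
    exact fun i _ h => hv ⟨h.1, h.2.1⟩

/-- the left ends of the runs -/
def lend (R : Finset ℕ) : Finset ℕ := R.filter fun e => ∀ w ∈ R, w + 1 ≠ e

lemma card_lend (R : Finset ℕ) : (lend R).card = cc R := by
  have h1 : nb R = R.image (· + 1) ∪ lend R := by
    ext u
    simp only [mem_nb, mem_union, mem_image, lend, mem_filter]
    constructor
    · rintro (h | h)
      · by_cases h1 : ∃ w ∈ R, w + 1 = u
        · exact Or.inl h1
        · push Not at h1
          exact Or.inr ⟨h, h1⟩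
      · exact Or.inl h
    · rintro (h | h)
      · exact Or.inr h
      · exact Or.inl h.1
  have h2 := card_nb R
  rw [h1, card_union_of_disjoint, card_image_of_injective _ (add_left_injective 1)] at h2
  · omega
  · refine disjoint_left.2 fun u hu hu' => ?_
    obtain ⟨w, hw, rfl⟩ := mem_image.1 hu
    exact (mem_filter.1 hu').2 w hw rfl

lemma exists_rend {R : Finset ℕ} {u : ℕ} (hu : u ∈ R) : ∀ n, u + n ∉ R →
    ∃ e, u ≤ e ∧ e < u + n ∧ e ∈ R ∧ e + 1 ∉ R := by
  intro n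
  induction n with
  | zero => exact fun h => absurd hu h
  | succ n ih =>
    intro h
    by_cases h1 : u + n ∈ R
    · exact ⟨u + n, by omega, by omega, h1, h⟩
    · obtain ⟨e, h2, h3, h4⟩ := ih h1
      exact ⟨e, h2, by omega, h4⟩

lemma exists_lend {R : Finset ℕ} {w : ℕ} (hw : w ∉ R) : ∀ n, w + n ∈ R →
    ∃ e, w < e ∧ e ≤ w + n ∧ e ∈ R ∧ ∀ w' ∈ R, w' + 1 ≠ e := by
  intro n
  induction n with
  | zero => exact fun h => absurd h hw
  | succ n ih =>
    intro h
    by_cases h1 : w + n ∈ R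
    · obtain ⟨e, h2, h3, h4⟩ := ih h1
      exact ⟨e, h2, by omega, h4⟩
    · refine ⟨w + (n + 1), by omega, le_rfl, h, fun w' hw' h2 => h1 ?_⟩
      have h3 : w' = w + n := by omega
      rw [← h3]
      exact hw'

lemma exists_end {R : Finset ℕ} {u w l r : ℕ} (hu : u ∈ R) (hw : w ∉ R) (hu1 : l ≤ u)
    (hu2 : u < r) (hw1 : l ≤ w) (hw2 : w < r) :
    ∃ e ∈ (R.filter fun e => e + 1 ∉ R) ∪ lend R, l ≤ e ∧ e < r := by
  rcases lt_trichotomy u w with h | h | h
  · obtain ⟨e, h1, h2, h3, h4⟩ := exists_rend hu (w - u) (by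
      have h1 : u + (w - u) = w := by omega
      rwa [h1])
    exact ⟨e, mem_union_left _ (mem_filter.2 ⟨h3, h4⟩), by omega, by omega⟩
  · exact absurd (h ▸ hu) hw
  · obtain ⟨e, h1, h2, h3, h4⟩ := exists_lend hw (u - w) (by
      have h1 : w + (u - w) = u := by omega
      rwa [h1])
    exact ⟨e, mem_union_right _ (mem_filter.2 ⟨h3, h4⟩), by omega, by omega⟩

/-- the windows in which a set of columns is not constant -/
lemma windows_card {R I : Finset ℕ} {x m : ℕ} (hx : 0 < x)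
    (h : ∀ i ∈ I, ∃ u ∈ R, ∃ w ∉ R, i * x ≤ u ∧ u < i * x + m * x ∧ i * x ≤ w ∧
      w < i * x + m * x) : I.card ≤ 2 * cc R * m := by
  classical
  have h1 : I ⊆ ((R.filter fun e => e + 1 ∉ R) ∪ lend R).biUnion
      fun e => I.filter fun i => i * x ≤ e ∧ e < i * x + m * x := by
    intro i hi
    obtain ⟨u, hu, w, hw, h1, h2, h3, h4⟩ := h i hi
    obtain ⟨e, he, h5, h6⟩ := exists_end hu hw h1 h2 h3 h4
    exact mem_biUnion.2 ⟨e, he, mem_filter.2 ⟨hi, h5, h6⟩⟩
  refine (card_le_card h1).trans ((card_biUnion_le_card_mul _ _ m fun e _ =>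
    cover_card hx).trans (Nat.mul_le_mul_right _ ?_))
  refine (card_union_le _ _).trans ?_
  rw [card_lend, cc]
  omega

section Account

variable {K : Blocks} {T : ℕ} (p : Play K T) {C : ℕ → Finset Vx}

lemma Play.und_down (hRel : ∀ ρ < T, p.Rel ρ (C (ρ + 1)) (C ρ)) {σ ρ : ℕ} (hσ : σ ≤ ρ)
    (hρ : ρ ≤ T) {w : Vx} (hw : ρ ≤ w.2 + 1) (hw' : σ = ρ ∨ ρ - 1 ≤ w.2) :
    Und (p.D ρ ∪ C ρ) w → Und (p.D σ ∪ C σ) w := by
  induction ρ, hσ using Nat.le_induction with
  | base => exact id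
  | succ ρ hσ ih =>
    intro h
    exact ih (by omega) (by omega) (Or.inr (by omega)) ((hRel ρ (by omega)).1 w (by omega) h)

lemma Play.und_up (hRel : ∀ ρ < T, p.Rel ρ (C (ρ + 1)) (C ρ)) {σ ρ : ℕ} (hσ : σ ≤ ρ)
    (hρ : ρ ≤ T) {w : Vx} (hw : ∀ τ, τ < ρ → τ + 4 * K.w τ ≤ w.2) :
    Und (p.D σ ∪ C σ) w → Und (p.D ρ ∪ C ρ) w := by
  induction ρ, hσ using Nat.le_induction with
  | base => exact id
  | succ ρ hσ ih =>
    intro h
    exact (hRel ρ (by omega)).2.1 w (hw ρ (by omega))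
      (ih (by omega) (fun τ hτ => hw τ (by omega)) h)

open Classical in
/-- the members of `C 0` which are not enclosed -/
noncomputable def B0 (C : ℕ → Finset Vx) : Finset Vx := (C 0).filter fun v => ¬ Und (C 0) v

/-- the columns of row `y` which are reached from the apex -/
noncomputable def Rr (C : ℕ → Finset Vx) (y : ℕ) : Finset ℕ := rch (B0 C) 0 {0} y

lemma mem_B0 {v : Vx} : v ∈ B0 C ↔ v ∈ C 0 ∧ ¬ Und (C 0) v := by
  classical
  rw [B0, mem_filter]

lemma und_B0 {v : Vx} : Und (B0 C) v ↔ Und (C 0) v := by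
  constructor
  · exact und_mono fun v hv _ => (mem_B0.1 hv).1
  · refine und_drop (r := 0) (fun v hv _ hv' => ?_) (Nat.zero_le _)
    by_contra h
    exact hv' (mem_B0.2 ⟨hv, h⟩)

lemma Play.D0C (v : Vx) : Und (p.D 0 ∪ C 0) v ↔ Und (C 0) v := by
  rw [p.D0, empty_union]

variable (hInv : ∀ ρ ≤ T, p.Inv ρ (C ρ)) (hRel : ∀ ρ < T, p.Rel ρ (C (ρ + 1)) (C ρ))

include hInv hRel

lemma Play.S_sub {y : ℕ} (hy : y ≤ T) : p.S y ⊆ Rr C y := by
  induction y with
  | zero =>
    rw [p.S0]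
    exact Subset.rfl
  | succ y ih =>
    intro u hu
    have h1 : Und (C 0) (u, y + 1) := by
      rw [← p.D0C]
      exact p.und_down hRel (Nat.zero_le _) hy (w := (u, y + 1)) (by show y + 1 ≤ y + 1 + 1; omega)
        (Or.inr (by show y + 1 - 1 ≤ y + 1; omega)) ((hInv _ hy).2.1 u hu)
    rw [p.Ssucc y (by omega), mem_stp] at hu
    have h2 : u ∈ Rr C y ∨ ∃ w ∈ Rr C y, w + 1 = u := by
      rcases hu.1 with h | ⟨w, h, h'⟩
      · exact Or.inl (ih (by omega) (p.AS y (by omega) h))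
      · exact Or.inr ⟨w, ih (by omega) (p.AS y (by omega) h), h'⟩
    refine mem_rch_succ.2 ⟨h2, fun h => ?_⟩
    rw [zero_add] at h
    exact (mem_B0.1 h).2 h1

omit hRel in
lemma Play.dead_Rr (y : ℕ) : ∀ u ∈ Rr C y, Und (C 0) (u, y) := by
  have h0 : Dead (B0 C) 0 {0} := by
    intro u hu
    rw [und_B0, ← p.D0C]
    rw [← p.S0] at hu
    exact (hInv 0 (Nat.zero_le _)).2.1 u hu
  intro u hu
  have h1 := h0.rch y u hu
  rw [zero_add] at h1
  exact und_B0.1 h1

lemma Play.rch_sub_Rr {τ : ℕ} (hτ : τ ≤ T) {S : Finset ℕ} (hS : S ⊆ p.S τ) (j : ℕ) :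
    rch (p.D τ ∪ C τ) τ S j ⊆ Rr C (τ + j) := by
  have hd : Dead (p.D τ ∪ C τ) τ S := (hInv τ hτ).2.1.mono hS
  induction j with
  | zero => exact hS.trans (p.S_sub hInv hRel hτ)
  | succ j ih =>
    intro u hu
    have h1 := hd.rch (j + 1) u hu
    have h2 : Und (C 0) (u, τ + (j + 1)) := by
      rw [← p.D0C]
      exact p.und_down hRel (Nat.zero_le _) hτ (w := (u, τ + (j + 1)))
        (by show τ ≤ τ + (j + 1) + 1; omega) (Or.inr (by show τ - 1 ≤ τ + (j + 1); omega)) h1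
    have h3 : u ∈ Rr C (τ + j) ∨ ∃ w ∈ Rr C (τ + j), w + 1 = u := by
      rcases (mem_rch_succ.1 hu).1 with h | ⟨w, h, h'⟩
      · exact Or.inl (ih h)
      · exact Or.inr ⟨w, ih h, h'⟩
    refine mem_rch_succ.2 ⟨h3, fun h => ?_⟩
    rw [zero_add] at h
    exact (mem_B0.1 h).2 h2

open Classical in
/-- the members of `D τ` in the next `x` rows which end up enclosed -/
noncomputable def Play.encl (C : ℕ → Finset Vx) (τ : ℕ) : Finset Vx :=
  (p.D τ).filter fun v => (τ < v.2 ∧ v.2 ≤ τ + K.w τ) ∧ Und (C 0) v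

omit hInv hRel in
/-- the excess of runs above row `τ` -/
noncomputable def exc (C : ℕ → Finset Vx) (τ x : ℕ) : ℕ :=
  ∑ j ∈ Ioc x (2 * x), (cc (Rr C (τ + j)) - 1)

/-- **The price of a heavy row.** -/
theorem Play.weight_le {τ : ℕ} (hτ : τ < T) :
    weight (p.D τ) τ (K.w τ) (p.S τ) ≤ 2 * lanesIn τ (K.w τ) + 12 * K.w τ +
      4 * (p.encl C τ).card + 6 * exc C τ (K.w τ) := by
  classical
  obtain ⟨x, hx⟩ : ∃ x, K.w τ = x := ⟨_, rfl⟩
  have hxpos : 0 < x := hx ▸ K.w_pos τ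
  obtain ⟨hadm, hdead, -⟩ := hInv τ hτ.le
  have hencl : p.encl C τ = ((p.D τ).filter fun v => Und (C 0) v).filter
      fun v => τ < v.2 ∧ v.2 ≤ τ + 1 * x := by
    rw [filter_filter, Play.encl, one_mul, ← hx]
    exact filter_congr fun v _ => and_comm
  rw [hx]
  set E := (p.D τ).filter fun v => Und (C 0) v with hE
  set I := range (lanesIn τ x) with hI
  let tr : ℕ → Prop := fun i => rch (p.D τ ∪ C τ) τ (lane (p.S τ) x i) (2 * x) ≠ ∅ ∧
    ∃ v ∈ zone (p.D τ) τ (i * x) x x, ¬ Und (C 0) v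
  have hlane : ∀ i, ∀ u ∈ lane (p.S τ) x i, i * x ≤ u ∧ u < i * x + x :=
    fun i u hu => (mem_lane.1 hu).2
  have hcost : ∀ i ∈ I, laneCost (p.D τ) τ x (p.S τ) i ≤
      (zone (C τ) τ (i * x) x (2 * x)).card + (2 * (zone E τ (i * x) x (1 * x)).card + 2) +
        if tr i then x else 0 := by
    intro i _
    by_cases h1 : rch (p.D τ ∪ C τ) τ (lane (p.S τ) x i) (2 * x) = ∅
    · have h2 := val_le_of_closed (D := p.D τ) (C := C τ) (ρ := τ) (Y := 2 * x) (by omega)
        (hlane i) h1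
      have h3 : laneCost (p.D τ) τ x (p.S τ) i ≤ val (p.D τ) τ (2 * x) (lane (p.S τ) x i) :=
        min_le_right _ _
      omega
    · by_cases h2 : ∃ v ∈ zone (p.D τ) τ (i * x) x x, ¬ Und (C 0) v
      · rw [if_pos (show tr i from ⟨h1, h2⟩)]
        have h3 : laneCost (p.D τ) τ x (p.S τ) i ≤ val (p.D τ) τ (2 * x) (lane (p.S τ) x i) :=
          min_le_right _ _
        have h4 := val_le_card (p.D τ) τ (2 * x) (lane (p.S τ) x i)
        have h5 : (lane (p.S τ) x i).card ≤ x := by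
          have h6 : lane (p.S τ) x i ⊆ Ico (i * x) (i * x + x) :=
            fun u hu => mem_Ico.2 (hlane i u hu)
          have h7 := card_le_card h6
          rw [Nat.card_Ico] at h7
          omega
        omega
      · have h3 : laneCost (p.D τ) τ x (p.S τ) i ≤ 2 * (zone (p.D τ) τ (i * x) x x).card + 2 :=
          min_le_left _ _
        have h4 : zone (p.D τ) τ (i * x) x x ⊆ zone E τ (i * x) x (1 * x) := by
          intro v hv
          rw [one_mul]
          push Not at h2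
          obtain ⟨h5, h6⟩ := mem_filter.1 hv
          exact mem_filter.2 ⟨mem_filter.2 ⟨h5, h2 v hv⟩, h6⟩
        have h5 := card_le_card h4
        omega
  have hsum := sum_le_sum hcost
  rw [sum_add_distrib, sum_add_distrib, sum_add_distrib, ← mul_sum, ← sum_filter] at hsum
  have hs1 := sum_zone_le (F := C τ) (τ := τ) (x := x) (j := 2) (I := I) hxpos
  have hs2 := sum_zone_le (F := E) (τ := τ) (x := x) (j := 1) (I := I) hxpos
  rw [← hencl] at hs2
  have hs3 : ((C τ).filter fun v => τ < v.2 ∧ v.2 ≤ τ + 2 * x).card ≤ 2 * x := by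
    refine le_trans (card_le_card fun v hv => ?_) (hadm.2 (2 * x) (by rw [hx]))
    obtain ⟨h1, h2⟩ := mem_filter.1 hv
    exact mem_filter.2 ⟨h1, h2.2⟩
  have hs4 : ∑ i ∈ I, 2 = 2 * lanesIn τ x := by
    rw [sum_const, hI, card_range, smul_eq_mul, mul_comm]
  -- the open lanes with a member which is not enclosed
  have htr : ∀ j ∈ Ioc x (2 * x), (I.filter tr).card ≤ 6 * cc (Rr C (τ + j)) := by
    intro j hj
    obtain ⟨hj1, hj2⟩ := mem_Ioc.1 hj
    have h1 := windows_card (R := Rr C (τ + j)) (I := I.filter tr) (x := x) (m := 3) hxpos ?_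
    · omega
    intro i hi
    obtain ⟨-, hopen, v, hv, hvU⟩ := mem_filter.1 hi
    have hne : (rch (p.D τ ∪ C τ) τ (lane (p.S τ) x i) j).Nonempty := by
      rw [nonempty_iff_ne_empty]
      exact fun h => hopen (rch_eq_empty_of_le hj2 h)
    obtain ⟨u, hu⟩ := hne
    have hub := rch_bounds (B := p.D τ ∪ C τ) (y := τ) (hlane i) j u hu
    have huR := p.rch_sub_Rr hInv hRel hτ.le (S := lane (p.S τ) x i) (filter_subset _ _) j hu
    obtain ⟨hvD, hv1, hv2, hv3, hv4⟩ := mem_filter.1 hv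
    obtain ⟨f, hf0, hf, hfU⟩ := exists_path (u := v.1) (y := v.2) hvU
    obtain ⟨n, hn⟩ : ∃ n, n = τ + j - v.2 := ⟨_, rfl⟩
    have h2 := (hf n).bounds (Nat.zero_le _) le_rfl
    rw [hf0] at h2
    have h3 : v.2 + n = τ + j := by omega
    have h4 := hfU n
    rw [h3] at h4
    exact ⟨u, huR, f n, fun h => h4 (p.dead_Rr hInv _ _ h), by omega, by omega, by omega,
      by omega⟩
  have hs5 : x * (I.filter tr).card ≤ 6 * x + 6 * exc C τ x := by
    have h1 := sum_le_sum htr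
    rw [sum_const, Nat.card_Ioc, smul_eq_mul, ← mul_sum] at h1
    have h2 : ∑ j ∈ Ioc x (2 * x), cc (Rr C (τ + j)) ≤
        ∑ j ∈ Ioc x (2 * x), (1 + (cc (Rr C (τ + j)) - 1)) :=
      sum_le_sum fun j _ => by omega
    rw [sum_add_distrib, sum_const, Nat.card_Ioc, smul_eq_mul, mul_one] at h2
    have h3 : 2 * x - x = x := by omega
    rw [h3] at h1 h2
    have h4 : exc C τ x = ∑ j ∈ Ioc x (2 * x), (cc (Rr C (τ + j)) - 1) := rfl
    omega
  have hs6 : ∑ i ∈ I.filter tr, x = x * (I.filter tr).card := by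
    rw [sum_const, smul_eq_mul, mul_comm]
  rw [hs4, hs6] at hsum
  have hw : weight (p.D τ) τ x (p.S τ) = ∑ i ∈ I, laneCost (p.D τ) τ x (p.S τ) i := rfl
  rw [hw]
  omega

end Account

end Pool.Agent.Lib.MP_24b7a7_co
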