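import Pool.Agent.Lib.MP_24b7a7_co.Account

/-!
MP_24b7a7_co: the response of Spreader in one row, and the division of the rows into blocks.
-/

set_option autoImplicit false

namespace Pool.Agent.Lib.MP_24b7a7_co

open Finset

/-- the response of Spreader in row `ρ` -/
theorem exists_response {ρ x : ℕ} (hx : 0 < x) (hρ : ρ ≤ 8 * x ^ 3) {D : Finset Vx}
    (hD : D.card ≤ ρ) {S : Finset ℕ} (hS : ∀ u ∈ S, u ≤ ρ) :
    ∃ A ⊆ S, A.card ≤ 216 * x ^ 2 ∧ rch D ρ A (2 * x) = rch D ρ S (2 * x) ∧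
      (Robust (2 * x) D ρ A S ∨ 198 * x ^ 2 < weight D ρ x S) := by
  classical
  obtain ⟨A, hAS, hA, hAc⟩ := exists_equal (Y := 2 * x) hS hD
  have h1 : A.card ≤ 16 * x ^ 2 + 2 := by
    by_contra hcon
    push Not at hcon
    have h2 : (16 * x ^ 2 + 3) * (2 * x + 1) ≤ A.card * (2 * x + 1) :=
      Nat.mul_le_mul_right _ hcon
    nlinarith
  have h2 : A.card ≤ 18 * x ^ 2 := by nlinarith
  by_cases hw : 198 * x ^ 2 < weight D ρ x S
  · exact ⟨A, hAS, by omega, hA, Or.inr hw⟩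
  · push Not at hw
    obtain ⟨X, hXS, hXc, hX⟩ := exists_robust (D := D) hx hS
    refine ⟨A ∪ X, union_subset hAS hXS, ?_, ?_, Or.inl (hX.mono subset_union_right)⟩
    · have := card_union_le A X
      omega
    · refine Subset.antisymm (rch_mono (union_subset hAS hXS) _) ?_
      rw [← hA]
      exact rch_mono subset_union_left _

/-- the integer cube root -/
def cbrt (m : ℕ) : ℕ := Nat.findGreatest (fun k => k ^ 3 ≤ m) m

lemma cbrt_le (m : ℕ) : cbrt m ^ 3 ≤ m :=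
  Nat.findGreatest_spec (P := fun k => k ^ 3 ≤ m) (Nat.zero_le m) (by simp)

lemma lt_cbrt (m : ℕ) : m < (cbrt m + 1) ^ 3 := by
  by_contra hcon
  push Not at hcon
  have h1 : cbrt m + 1 ≤ m := (Nat.le_self_pow (by norm_num) _).trans hcon
  exact Nat.findGreatest_is_greatest (P := fun k => k ^ 3 ≤ m) (Nat.lt_succ_self (cbrt m)) h1 hcon

lemma cbrt_mono {m n : ℕ} (h : m ≤ n) : cbrt m ≤ cbrt n := by
  by_contra hcon
  push Not at hcon
  have h1 := lt_cbrt n
  have h2 := cbrt_le m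
  have h3 : (cbrt n + 1) ^ 3 ≤ cbrt m ^ 3 := Nat.pow_le_pow_left hcon 3
  omega

/-- the width of the lanes in a block which starts in row `m` -/
def cx (m : ℕ) : ℕ := max 1 (cbrt m)

/-- the first row of the block `n` -/
def bb : ℕ → ℕ
  | 0 => 0
  | n + 1 => bb n + 2 * cx (bb n)

lemma cx_pos (m : ℕ) : 0 < cx m := lt_of_lt_of_le one_pos (le_max_left _ _)

lemma le_bb (n : ℕ) : n ≤ bb n := by
  induction n with
  | zero => exact Nat.zero_le _
  | succ n ih =>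
    have := cx_pos (bb n)
    show n + 1 ≤ bb n + 2 * cx (bb n)
    omega

/-- the block of row `ρ` -/
def bix (ρ : ℕ) : ℕ := Nat.findGreatest (fun n => bb n ≤ ρ) ρ

lemma bix_lo (ρ : ℕ) : bb (bix ρ) ≤ ρ :=
  Nat.findGreatest_spec (P := fun n => bb n ≤ ρ) (Nat.zero_le ρ) (Nat.zero_le _)

lemma bix_hi (ρ : ℕ) : ρ < bb (bix ρ + 1) := by
  by_contra hcon
  push Not at hcon
  exact Nat.findGreatest_is_greatest (P := fun n => bb n ≤ ρ) (Nat.lt_succ_self (bix ρ))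
    ((le_bb _).trans hcon) hcon

/-- the division of the rows -/
def blocks : Blocks where
  b := bb
  x := fun n => cx (bb n)
  ix := bix
  b0 := rfl
  bs := fun _ => rfl
  xpos := fun _ => cx_pos _
  xmono := fun _ => max_le_max le_rfl (cbrt_mono (Nat.le_add_right _ _))
  lo := bix_lo
  hi := bix_hi

lemma blocks_upper (ρ : ℕ) : ρ ≤ 8 * blocks.w ρ ^ 3 := by
  have h1 : ρ < bb (bix ρ) + 2 * blocks.w ρ := bix_hi ρ
  have h2 := lt_cbrt (bb (bix ρ))
  have h3 : blocks.w ρ = max 1 (cbrt (bb (bix ρ))) := rfl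
  obtain ⟨c, hc⟩ : ∃ c, cbrt (bb (bix ρ)) = c := ⟨_, rfl⟩
  rw [hc] at h2 h3
  rcases Nat.eq_zero_or_pos c with h4 | h4
  · subst h4
    simp only [zero_le, sup_of_le_left] at h3
    rw [h3] at h1 ⊢
    omega
  · rw [max_eq_right h4] at h3
    rw [h3] at h1 ⊢
    obtain ⟨d, rfl⟩ : ∃ d, c = d + 1 := ⟨c - 1, by omega⟩
    have h5 : bb (bix ρ) + 1 ≤ (d + 1 + 1) ^ 3 := h2
    nlinarith [sq_nonneg (d : ℤ)]

lemma blocks_lower {ρ : ℕ} (h : 1 ≤ ρ) : blocks.w ρ ^ 3 ≤ ρ := by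
  have h3 : blocks.w ρ = max 1 (cbrt (bb (bix ρ))) := rfl
  rcases le_total 1 (cbrt (bb (bix ρ))) with h4 | h4
  · rw [h3, max_eq_right h4]
    exact (cbrt_le _).trans (bix_lo ρ)
  · rw [h3, max_eq_left h4]
    simpa using h

end Pool.Agent.Lib.MP_24b7a7_co
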