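import Pool.Agent.Lib.MP_24b7a7_co.Basis

/-!
MP_24b7a7_co: the choice of the replacement in one row. `exists_robust` splits the row into lanes
of `x` columns; `exists_equal` finds few columns which reach the same columns `Y` rows higher.
-/

set_option autoImplicit false

namespace Pool.Agent.Lib.MP_24b7a7_co

open Finset

/-- the columns of `S` in lane `i` -/
def lane (S : Finset ℕ) (x i : ℕ) : Finset ℕ := S.filter fun u => i * x ≤ u ∧ u < i * x + x

/-- the number of columns with which a lane may be replaced -/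
noncomputable def laneCost (D : Finset Vx) (ρ x : ℕ) (S : Finset ℕ) (i : ℕ) : ℕ :=
  min (2 * (zone D ρ (i * x) x x).card + 2) (val D ρ (2 * x) (lane S x i))

/-- the number of lanes used in row `ρ` -/
def lanesIn (ρ x : ℕ) : ℕ := ρ / x + 1

/-- the number of columns with which `S` may be replaced -/
noncomputable def weight (D : Finset Vx) (ρ x : ℕ) (S : Finset ℕ) : ℕ :=
  ∑ i ∈ range (lanesIn ρ x), laneCost D ρ x S i

lemma mem_lane {S : Finset ℕ} {x i u : ℕ} :
    u ∈ lane S x i ↔ u ∈ S ∧ i * x ≤ u ∧ u < i * x + x := by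
  rw [lane, mem_filter]

lemma biUnion_lane {S : Finset ℕ} {ρ x : ℕ} (hx : 0 < x) (hS : ∀ u ∈ S, u ≤ ρ) :
    (range (lanesIn ρ x)).biUnion (lane S x) = S := by
  ext u
  rw [mem_biUnion]
  constructor
  · rintro ⟨i, -, h⟩
    exact (mem_lane.1 h).1
  · intro h
    refine ⟨u / x, mem_range.2 (Nat.lt_succ_of_le (Nat.div_le_div_right (hS u h))),
      mem_lane.2 ⟨h, Nat.div_mul_le_self u x, ?_⟩⟩
    have h1 := Nat.div_add_mod u x
    have h2 := Nat.mod_lt u hx
    rw [mul_comm] at h1
    omega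

theorem exists_robust {D : Finset Vx} {ρ x : ℕ} {S : Finset ℕ} (hx : 0 < x)
    (hS : ∀ u ∈ S, u ≤ ρ) :
    ∃ X ⊆ S, X.card ≤ weight D ρ x S ∧ Robust (2 * x) D ρ X S := by
  classical
  have h : ∀ i, ∃ X ⊆ lane S x i, X.card ≤ laneCost D ρ x S i ∧
      Robust (2 * x) D ρ X (lane S x i) := by
    intro i
    obtain ⟨X1, h1, h2, h3⟩ := thin (Y := 2 * x) (D := D) (ρ := ρ) (l := i * x)
      (T := lane S x i) hx (by omega) fun u hu => (mem_lane.1 hu).2
    obtain ⟨X2, h4, h5, h6⟩ := basis D ρ (2 * x) (lane S x i)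
    by_cases hc : 2 * (zone D ρ (i * x) x x).card + 2 ≤ val D ρ (2 * x) (lane S x i)
    · exact ⟨X1, h1, by rw [laneCost, min_eq_left hc]; exact h2, h3⟩
    · exact ⟨X2, h4, by rw [laneCost, min_eq_right (by omega)]; exact h5, h6⟩
  choose X h1 h2 h3 using h
  refine ⟨(range (lanesIn ρ x)).biUnion X, ?_, ?_, ?_⟩
  · refine biUnion_subset.2 fun i _ => (h1 i).trans fun u hu => (mem_lane.1 hu).1
  · exact card_biUnion_le.trans (sum_le_sum fun i _ => h2 i)
  · have h4 := robust_biUnion (Y := 2 * x) (D := D) (ρ := ρ) (range (lanesIn ρ x))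
      (X := X) (T := lane S x) fun i _ => h3 i
    rwa [biUnion_lane hx hS] at h4

/-- few columns which reach, `Y` rows higher, the same columns as `S` -/
theorem exists_equal {D : Finset Vx} {ρ Y : ℕ} {S : Finset ℕ} (hS : ∀ u ∈ S, u ≤ ρ)
    (hD : D.card ≤ ρ) :
    ∃ A ⊆ S, rch D ρ A Y = rch D ρ S Y ∧ A.card * (Y + 1) ≤ 2 * (2 * ρ + Y + 1) := by
  classical
  obtain ⟨A, ⟨hAS, hA⟩, hmin⟩ := exists_min_card
    (P := fun A => A ⊆ S ∧ rch D ρ A Y = rch D ρ S Y) ⟨S, Subset.rfl, rfl⟩
  refine ⟨A, hAS, hA, ?_⟩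
  -- private paths
  have hpath : ∀ a ∈ A, ∃ f : ℕ → ℕ, f 0 = a ∧ IsPath D ρ f Y ∧
      ∀ n ≤ Y, ∀ b ∈ A, b ≠ a → f n ∉ rch D ρ {b} n := by
    intro a ha
    have h1 : rch D ρ (A.erase a) Y ≠ rch D ρ A Y := by
      intro h
      have h2 := hmin (A.erase a) ⟨(erase_subset _ _).trans hAS, h.trans hA⟩
      rw [card_erase_of_mem ha] at h2
      have := card_pos.2 ⟨a, ha⟩
      omega
    obtain ⟨z, hz, hz'⟩ : ∃ z ∈ rch D ρ A Y, z ∉ rch D ρ (A.erase a) Y := by
      by_contra hcon
      push Not at hcon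
      exact h1 (Subset.antisymm (rch_mono (erase_subset _ _) _) hcon)
    have h3 : z ∈ rch D ρ {a} Y := by
      have h4 := rch_union D ρ {a} (A.erase a) Y
      rw [← insert_eq, insert_erase ha] at h4
      rw [h4] at hz
      exact (mem_union.1 hz).resolve_right hz'
    obtain ⟨f, hf0, hfY, hf⟩ := exists_path_of_mem_rch h3
    refine ⟨f, mem_singleton.1 hf0, hf, fun n hn b hb hba hfn => hz' ?_⟩
    have h5 := hf.mem_rch hfn hn le_rfl
    rw [hfY] at h5
    exact rch_mono (singleton_subset_iff.2 (mem_erase.2 ⟨hba, hb⟩)) _ h5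
  choose! f hf0 hf hfn using hpath
  -- one parity class
  have hparity : ∃ E ⊆ A, A.card ≤ 2 * E.card ∧
      ∀ a ∈ E, ∀ c ∈ E, a < c → ∃ b ∈ A, a < b ∧ b < c := by
    have hbetween : ∀ a ∈ A, ∀ c ∈ A, a < c →
        (Even (A.filter (· < a)).card ↔ Even (A.filter (· < c)).card) →
        ∃ b ∈ A, a < b ∧ b < c := by
      intro a ha c _ hac hpar
      by_contra hcon
      push Not at hcon
      have h1 : A.filter (· < c) = insert a (A.filter (· < a)) := by
        ext u
        simp only [mem_filter, mem_insert]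
        constructor
        · rintro ⟨h2, h3⟩
          rcases lt_trichotomy u a with h | h | h
          · exact Or.inr ⟨h2, h⟩
          · exact Or.inl h
          · exact absurd (hcon u h2 h) (by omega)
        · rintro (rfl | ⟨h2, h3⟩)
          · exact ⟨ha, hac⟩
          · exact ⟨h2, by omega⟩
      have h5 : a ∉ A.filter (· < a) := fun h => lt_irrefl _ (mem_filter.1 h).2
      rw [h1, card_insert_of_notMem h5, Nat.even_add_one] at hpar
      tauto
    have hsum := card_filter_add_card_filter_not (s := A)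
      fun a => Even (A.filter (· < a)).card
    by_cases h : A.card ≤ 2 * (A.filter fun a => Even (A.filter (· < a)).card).card
    · refine ⟨A.filter fun a => Even (A.filter (· < a)).card, filter_subset _ _, h, ?_⟩
      intro a ha c hc hac
      obtain ⟨h1, h2⟩ := mem_filter.1 ha
      obtain ⟨h3, h4⟩ := mem_filter.1 hc
      exact hbetween a h1 c h3 hac (iff_of_true h2 h4)
    · refine ⟨A.filter fun a => ¬ Even (A.filter (· < a)).card, filter_subset _ _, by omega, ?_⟩
      intro a ha c hc hac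
      obtain ⟨h1, h2⟩ := mem_filter.1 ha
      obtain ⟨h3, h4⟩ := mem_filter.1 hc
      exact hbetween a h1 c h3 hac (iff_of_false h2 h4)
  obtain ⟨E, hEA, hEc, hE⟩ := hparity
  -- separation
  have hsep : ∀ a ∈ E, ∀ c ∈ E, a < c → ∃ g : ℕ → ℕ, ∀ n ≤ Y,
      (∀ u ∈ rch D ρ {a} n, u < g n) ∧ ∀ w ∈ rch D ρ {c} n, g n < w := by
    intro a ha c hc hac
    obtain ⟨b, hb, hab, hbc⟩ := hE a ha c hc hac
    refine ⟨f b, fun n hn => ⟨?_, ?_⟩⟩
    · refine left_of_path (hf b hb) (fun u hu => ?_)
        (fun m hm => hfn b hb m hm a (hEA ha) (by omega)) n hn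
      rw [mem_singleton.1 hu, hf0 b hb]
      exact hab
    · refine right_of_path (hf b hb) (fun u hu => ?_)
        (fun m hm => hfn b hb m hm c (hEA hc) (by omega)) n hn
      rw [mem_singleton.1 hu, hf0 b hb]
      exact hbc
  have hM : ∑ a ∈ E, (rch D ρ {a} Y).card ≤ ρ + 1 + Y := by
    rw [← card_biUnion]
    · refine (card_le_card (t := range (ρ + 1 + Y)) ?_).trans (card_range _).le
      refine biUnion_subset.2 fun a ha u hu => mem_range.2 ?_
      exact (rch_bounds (B := D) (y := ρ) (R := {a}) (l := 0) (r := ρ + 1) (fun v hv => by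
        rw [mem_singleton.1 hv]
        have := hS a (hAS (hEA ha))
        omega) Y u hu).2
    · intro a ha c hc hac
      refine disjoint_left.2 fun u hu hu' => ?_
      rcases lt_or_gt_of_ne hac with h | h
      · obtain ⟨g, hg⟩ := hsep a ha c hc h
        have h1 := (hg Y le_rfl).1 u hu
        have h2 := (hg Y le_rfl).2 u hu'
        omega
      · obtain ⟨g, hg⟩ := hsep c hc a ha h
        have h1 := (hg Y le_rfl).1 u hu'
        have h2 := (hg Y le_rfl).2 u hu
        omega
  have hH : ∑ a ∈ E, (hits D ρ {a} Y).card ≤ ρ := by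
    rw [← card_biUnion]
    · refine (card_le_card (t := D) ?_).trans hD
      exact biUnion_subset.2 fun a _ => filter_subset _ _
    · have hnb : ∀ a c : ℕ, a ∈ E → c ∈ E → a < c → ∀ v, v ∈ hits D ρ {a} Y →
          v ∈ hits D ρ {c} Y → False := by
        intro a c ha hc hac v hv hv'
        obtain ⟨g, hg⟩ := hsep a ha c hc hac
        obtain ⟨-, h1, h2, h3⟩ := mem_filter.1 hv
        obtain ⟨-, -, -, h4⟩ := mem_filter.1 hv'
        obtain ⟨h5, h6⟩ := hg (v.2 - ρ - 1) (by omega)
        have h7 : v.1 ≤ g (v.2 - ρ - 1) := by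
          rcases mem_nb.1 h3 with h | ⟨w, h, h'⟩
          · exact (h5 _ h).le
          · have := h5 _ h
            omega
        have h8 : g (v.2 - ρ - 1) < v.1 := by
          rcases mem_nb.1 h4 with h | ⟨w, h, h'⟩
          · exact h6 _ h
          · have := h6 _ h
            omega
        omega
      intro a ha c hc hac
      refine disjoint_left.2 fun v hv hv' => ?_
      rcases lt_or_gt_of_ne hac with h | h
      · exact hnb a c ha hc h v hv hv'
      · exact hnb c a hc ha h v hv' hv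
  have hgrow : ∑ a ∈ E, (1 + Y) ≤
      ∑ a ∈ E, ((rch D ρ {a} Y).card + (hits D ρ {a} Y).card) := by
    refine sum_le_sum fun a ha => ?_
    have h1 := growth_ge (B := D) (y := ρ) (R := {a}) (N := Y) fun n hn =>
      ⟨f a n, (hf a (hEA ha)).mem_rch_zero (by rw [hf0 a (hEA ha)]; exact mem_singleton_self a)
        hn.le⟩
    simpa using h1
  rw [sum_const, smul_eq_mul, sum_add_distrib] at hgrow
  have h1 : A.card * (Y + 1) ≤ 2 * E.card * (Y + 1) := Nat.mul_le_mul_right _ hEc
  have h2 : 2 * E.card * (Y + 1) = 2 * (E.card * (1 + Y)) := by ring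
  omega

end Pool.Agent.Lib.MP_24b7a7_co
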