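import Pool.Agent.Lib.MP_24b7a7_co.Basic

/-!
MP_24b7a7_co: thin lanes. In a lane of `x` columns whose cone of height `x` contains `p` deleted
vertices, the `p + 1` leftmost and the `p + 1` rightmost columns of a set may replace the set.
-/

set_option autoImplicit false

namespace Pool.Agent.Lib.MP_24b7a7_co

open Finset

/-- `v` lies in one of the first `h` rows of the cone above the columns `[l, l + x)` of row `ρ` -/
def InZ (ρ l x h : ℕ) (v : Vx) : Prop :=
  ρ < v.2 ∧ v.2 ≤ ρ + h ∧ l ≤ v.1 ∧ v.1 < l + x + (v.2 - ρ)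

instance (ρ l x h : ℕ) (v : Vx) : Decidable (InZ ρ l x h v) := by
  unfold InZ
  infer_instance

/-- the members of `D` in the first `h` rows of the cone above the columns `[l, l + x)` -/
def zone (D : Finset Vx) (ρ l x h : ℕ) : Finset Vx := D.filter fun v => InZ ρ l x h v

lemma zone_union (D C : Finset Vx) (ρ l x h : ℕ) :
    zone (D ∪ C) ρ l x h = zone D ρ l x h ∪ zone C ρ l x h := filter_union _ _ _

lemma exists_left (T : Finset ℕ) : ∀ k ≤ T.card, ∃ G ⊆ T, G.card = k ∧
    ∀ a ∈ G, ∀ b ∈ T, b ∉ G → a < b := by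
  intro k
  induction k with
  | zero => exact fun _ => ⟨∅, empty_subset _, rfl, fun a ha => absurd ha (notMem_empty _)⟩
  | succ k ih =>
    intro hk
    obtain ⟨G, hG, hGk, hlt⟩ := ih (by omega)
    have hne : (T \ G).Nonempty := by
      rw [← card_pos, card_sdiff_of_subset hG]
      omega
    obtain ⟨hm1, hm2⟩ := mem_sdiff.1 ((T \ G).min'_mem hne)
    refine ⟨insert ((T \ G).min' hne) G, insert_subset hm1 hG, ?_, ?_⟩
    · rw [card_insert_of_notMem hm2, hGk]
    · intro a ha b hb hbG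
      rw [mem_insert, not_or] at hbG
      rcases mem_insert.1 ha with rfl | ha
      · exact lt_of_le_of_ne ((T \ G).min'_le b (mem_sdiff.2 ⟨hb, hbG.2⟩)) (Ne.symm hbG.1)
      · exact hlt a ha b hb hbG.2

lemma exists_right (T : Finset ℕ) : ∀ k ≤ T.card, ∃ G ⊆ T, G.card = k ∧
    ∀ a ∈ G, ∀ b ∈ T, b ∉ G → b < a := by
  intro k
  induction k with
  | zero => exact fun _ => ⟨∅, empty_subset _, rfl, fun a ha => absurd ha (notMem_empty _)⟩
  | succ k ih =>
    intro hk
    obtain ⟨G, hG, hGk, hlt⟩ := ih (by omega)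
    have hne : (T \ G).Nonempty := by
      rw [← card_pos, card_sdiff_of_subset hG]
      omega
    obtain ⟨hm1, hm2⟩ := mem_sdiff.1 ((T \ G).max'_mem hne)
    refine ⟨insert ((T \ G).max' hne) G, insert_subset hm1 hG, ?_, ?_⟩
    · rw [card_insert_of_notMem hm2, hGk]
    · intro a ha b hb hbG
      rw [mem_insert, not_or] at hbG
      rcases mem_insert.1 ha with rfl | ha
      · exact lt_of_le_of_ne ((T \ G).le_max' b (mem_sdiff.2 ⟨hb, hbG.2⟩)) hbG.1
      · exact hlt a ha b hb hbG.2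

/-- the counting step of a thin lane -/
lemma side_card {D C : Finset Vx} {ρ l x Y p : ℕ} {G : Finset ℕ} (hxY : x ≤ Y)
    (hp : (zone D ρ l x x).card = p) (hC : Adm Y ρ C) (hG : G.card = p + 1)
    (hh : ∀ N ≤ x, hits (D ∪ C) ρ G N ⊆ zone (D ∪ C) ρ l x N) :
    p + 1 + x ≤ (rch (D ∪ C) ρ G x).card + (hits (D ∪ C) ρ G x).card := by
  have hne : ∀ N ≤ x, (rch (D ∪ C) ρ G N).Nonempty := by
    intro N
    induction N using Nat.strong_induction_on with
    | _ N ih =>
      intro hN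
      have h1 := growth_ge (B := D ∪ C) (y := ρ) (R := G) (N := N) fun n hn => ih n hn (by omega)
      have h2 : (hits (D ∪ C) ρ G N).card ≤ p + N := by
        refine (card_le_card (hh N hN)).trans ?_
        rw [zone_union]
        refine (card_union_le _ _).trans (add_le_add ?_ ?_)
        · rw [← hp]
          refine card_le_card fun v hv => ?_
          obtain ⟨h3, h4, h5, h6⟩ := mem_filter.1 hv
          exact mem_filter.2 ⟨h3, h4, by omega, h6⟩
        · refine le_trans (card_le_card fun v hv => ?_) (hC.2 N (by omega))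
          obtain ⟨h3, h4, h5, h6⟩ := mem_filter.1 hv
          exact mem_filter.2 ⟨h3, h5⟩
      rw [← card_pos]
      omega
  have h1 := growth_ge (B := D ∪ C) (y := ρ) (R := G) (N := x) fun n hn => hne n hn.le
  omega

/-- **Thin lanes.** -/
theorem thin {Y : ℕ} {D : Finset Vx} {ρ l x : ℕ} {T : Finset ℕ} (hx : 0 < x) (hxY : x ≤ Y)
    (hT : ∀ u ∈ T, l ≤ u ∧ u < l + x) :
    ∃ X ⊆ T, X.card ≤ 2 * (zone D ρ l x x).card + 2 ∧ Robust Y D ρ X T := by
  classical
  obtain ⟨p, hp⟩ : ∃ p, (zone D ρ l x x).card = p := ⟨_, rfl⟩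
  rw [hp]
  by_cases hcard : T.card ≤ 2 * p + 2
  · exact ⟨T, Subset.rfl, hcard, robust_of_subset Subset.rfl⟩
  push Not at hcard
  obtain ⟨G1, hG1, hG1c, hG1lt⟩ := exists_left T (p + 1) (by omega)
  obtain ⟨G2, hG2, hG2c, hG2lt⟩ := exists_right T (p + 1) (by omega)
  refine ⟨G1 ∪ G2, union_subset hG1 hG2, ?_, ?_⟩
  · have := card_union_le G1 G2
    omega
  intro C hC hX
  by_cases hTd : Dead (D ∪ C) ρ T
  · exact ⟨C, hC.1, fun _ => le_rfl, hTd, fun _ _ => id, fun _ _ => Iff.rfl⟩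
  obtain ⟨b, hb, hbU⟩ : ∃ b ∈ T, ¬ Und (D ∪ C) (b, ρ) := by
    rw [Dead] at hTd
    push Not at hTd
    exact hTd
  obtain ⟨f, hf0, hf, hfU⟩ := exists_path hbU
  have hLd : Dead (D ∪ C) ρ G1 := hX.mono subset_union_left
  have hRd : Dead (D ∪ C) ρ G2 := hX.mono subset_union_right
  have hLf : ∀ n, ∀ u ∈ rch (D ∪ C) ρ G1 n, u < f n := by
    intro n
    refine left_of_path (hf n) (fun u hu => ?_) (fun m _ hm => hfU m (hLd.rch m _ hm)) n le_rfl
    rw [hf0]
    exact hG1lt u hu b hb fun h => hbU (hLd b h)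
  have hRf : ∀ n, ∀ u ∈ rch (D ∪ C) ρ G2 n, f n < u := by
    intro n
    refine right_of_path (hf n) (fun u hu => ?_) (fun m _ hm => hfU m (hRd.rch m _ hm)) n le_rfl
    rw [hf0]
    exact hG2lt u hu b hb fun h => hbU (hRd b h)
  have hLb : ∀ n, ∀ u ∈ rch (D ∪ C) ρ G1 n, l ≤ u ∧ u < l + x + n :=
    rch_bounds fun u hu => hT u (hG1 hu)
  have hRb : ∀ n, ∀ u ∈ rch (D ∪ C) ρ G2 n, l ≤ u ∧ u < l + x + n :=
    rch_bounds fun u hu => hT u (hG2 hu)
  have hitb : ∀ G : Finset ℕ, (∀ n, ∀ u ∈ rch (D ∪ C) ρ G n, l ≤ u ∧ u < l + x + n) →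
      ∀ N, hits (D ∪ C) ρ G N ⊆ zone (D ∪ C) ρ l x N := by
    intro G hG N v hv
    obtain ⟨h1, h2, h3, h4⟩ := mem_filter.1 hv
    refine mem_filter.2 ⟨h1, h2, h3, ?_⟩
    rcases mem_nb.1 h4 with h5 | ⟨w, h5, h6⟩
    · have := hG _ _ h5
      omega
    · have := hG _ _ h5
      omega
  have hitL : ∀ N, ∀ v ∈ hits (D ∪ C) ρ G1 N, v.1 < f (v.2 - ρ) := by
    intro N v hv
    obtain ⟨h1, h2, h3, h4⟩ := mem_filter.1 hv
    obtain ⟨n, hn⟩ : ∃ n, v.2 = ρ + n + 1 := ⟨v.2 - ρ - 1, by omega⟩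
    have h5 : v.2 - ρ - 1 = n := by omega
    have h6 : v.2 - ρ = n + 1 := by omega
    rw [h5] at h4
    rw [h6]
    obtain ⟨h7, h8⟩ := hf (n + 1) n (by omega)
    have h9 : v.1 ≠ f (n + 1) := fun h => h8 (by
      rw [← h, ← hn]
      exact h1)
    rcases mem_nb.1 h4 with h10 | ⟨w, h10, h11⟩
    · have := hLf n _ h10
      omega
    · have := hLf n _ h10
      omega
  have hitR : ∀ N, ∀ v ∈ hits (D ∪ C) ρ G2 N, f (v.2 - ρ) < v.1 := by
    intro N v hv
    obtain ⟨h1, h2, h3, h4⟩ := mem_filter.1 hv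
    obtain ⟨n, hn⟩ : ∃ n, v.2 = ρ + n + 1 := ⟨v.2 - ρ - 1, by omega⟩
    have h5 : v.2 - ρ - 1 = n := by omega
    have h6 : v.2 - ρ = n + 1 := by omega
    rw [h5] at h4
    rw [h6]
    obtain ⟨h7, h8⟩ := hf (n + 1) n (by omega)
    have h9 : v.1 ≠ f (n + 1) := fun h => h8 (by
      rw [← h, ← hn]
      exact h1)
    rcases mem_nb.1 h4 with h10 | ⟨w, h10, h11⟩
    · have := hRf n _ h10
      omega
    · have := hRf n _ h10
      omega
  have hcL := side_card hxY hp hC hG1c fun N _ => hitb G1 hLb N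
  have hcR := side_card hxY hp hC hG2c fun N _ => hitb G2 hRb N
  have hdis : Disjoint (hits (D ∪ C) ρ G1 x) (hits (D ∪ C) ρ G2 x) := by
    refine disjoint_left.2 fun v hv hv' => ?_
    have h1 := hitL x v hv
    have h2 := hitR x v hv'
    omega
  have hhits : (hits (D ∪ C) ρ G1 x).card + (hits (D ∪ C) ρ G2 x).card ≤
      p + (zone C ρ l x x).card := by
    rw [← card_union_of_disjoint hdis, ← hp]
    refine (card_le_card (union_subset (hitb G1 hLb x) (hitb G2 hRb x))).trans ?_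
    rw [zone_union]
    exact card_union_le _ _
  have hdis2 : Disjoint (rch (D ∪ C) ρ G1 x) (rch (D ∪ C) ρ G2 x) := by
    refine disjoint_left.2 fun u hu hu' => ?_
    have h1 := hLf x u hu
    have h2 := hRf x u hu'
    omega
  set K := Ico l (l + 2 * x) \ (rch (D ∪ C) ρ G1 x ∪ rch (D ∪ C) ρ G2 x) with hK
  have hKc : K.card + ((rch (D ∪ C) ρ G1 x).card + (rch (D ∪ C) ρ G2 x).card) = 2 * x := by
    have h1 : rch (D ∪ C) ρ G1 x ∪ rch (D ∪ C) ρ G2 x ⊆ Ico l (l + 2 * x) := by
      intro u hu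
      rcases mem_union.1 hu with h | h
      · have := hLb x u h
        exact mem_Ico.2 (by omega)
      · have := hRb x u h
        exact mem_Ico.2 (by omega)
    rw [hK, ← card_union_of_disjoint hdis2, card_sdiff_add_card_eq_card h1, Nat.card_Ico]
    omega
  have hKle : K.card ≤ (zone C ρ l x x).card := by omega
  set C' := (C.filter fun v => ¬ InZ ρ l x x v) ∪ K.image (fun u => (u, ρ + x)) with hC'
  have hagree : ∀ c : Vx, ρ + x < c.2 → (c ∈ C' ↔ c ∈ C) := by
    intro c hc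
    rw [hC', mem_union, mem_filter, mem_image]
    constructor
    · rintro (h | ⟨u, -, rfl⟩)
      · exact h.1
      · exact absurd hc (lt_irrefl _)
    · intro h
      exact Or.inl ⟨h, fun h1 => absurd h1.2.1 (by omega)⟩
  have hhigh : ∀ w : Vx, ρ + x ≤ w.2 → Und (D ∪ C) w → Und (D ∪ C') w := by
    intro w hw hU
    refine (und_congr fun v hv => ?_).1 hU
    rw [mem_union, mem_union, hagree v (by omega)]
  have hzone : ∀ v : Vx, ρ ≤ v.2 → v.2 ≤ ρ + x → l ≤ v.1 → v.1 < l + x + (v.2 - ρ) →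
      (v.2 = ρ + x ∧ v ∈ D ∪ C') ∨ Und (D ∪ C') v := by
    refine down_induct (P := fun v => ρ ≤ v.2 → v.2 ≤ ρ + x → l ≤ v.1 →
      v.1 < l + x + (v.2 - ρ) → (v.2 = ρ + x ∧ v ∈ D ∪ C') ∨ Und (D ∪ C') v) (ρ + x) ?_ ?_
    · intro v hv h1 h2 h3 h4
      have h5 : v.2 = ρ + x := le_antisymm h2 hv
      have h6 : v = (v.1, ρ + x) := Prod.ext rfl h5
      by_cases h7 : v.1 ∈ rch (D ∪ C) ρ G1 x ∪ rch (D ∪ C) ρ G2 x
      · right
        refine hhigh v hv ?_
        rw [h6]
        rcases mem_union.1 h7 with h | h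
        · exact hLd.rch x _ h
        · exact hRd.rch x _ h
      · left
        refine ⟨h5, mem_union_right _ (mem_union_right _ (mem_image.2 ⟨v.1, ?_, h6.symm⟩))⟩
        exact mem_sdiff.2 ⟨mem_Ico.2 (by omega), h7⟩
    · intro u y ih1 ih2 h1 h2 h3 h4
      simp only at h1 h2 h3 h4 ih1 ih2
      by_cases h5 : y = ρ + x
      · have h6 : (u, y) = (u, ρ + x) := by rw [h5]
        by_cases h7 : u ∈ rch (D ∪ C) ρ G1 x ∪ rch (D ∪ C) ρ G2 x
        · right
          refine hhigh _ h5.ge ?_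
          rw [h6]
          rcases mem_union.1 h7 with h | h
          · exact hLd.rch x _ h
          · exact hRd.rch x _ h
        · left
          refine ⟨h5, mem_union_right _ (mem_union_right _ (mem_image.2 ⟨u, ?_, h6.symm⟩))⟩
          exact mem_sdiff.2 ⟨mem_Ico.2 (by omega), h7⟩
      · right
        rw [und_iff_children]
        have h8 := ih1 (by omega) (by omega) (by omega) (by omega)
        have h9 := ih2 (by omega) (by omega) (by omega) (by omega)
        exact ⟨h8.imp And.right id, h9.imp And.right id⟩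
  refine ⟨C', ?_, ?_, ?_, ?_, ?_⟩
  · intro c hc
    rcases mem_union.1 hc with h | h
    · exact hC.1 c (mem_filter.1 h).1
    · obtain ⟨u, -, rfl⟩ := mem_image.1 h
      show ρ < ρ + x
      omega
  · intro k
    by_cases hk : ρ + x ≤ k
    · have h1 : cnt C' k ≤ ((C.filter fun v => v.2 ≤ k).filter fun v => ¬ InZ ρ l x x v).card +
          K.card := by
        have h2 : (C'.filter fun v => v.2 ≤ k) ⊆
            ((C.filter fun v => v.2 ≤ k).filter fun v => ¬ InZ ρ l x x v) ∪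
              K.image (fun u => (u, ρ + x)) := by
          intro v hv
          obtain ⟨h3, h4⟩ := mem_filter.1 hv
          rcases mem_union.1 h3 with h | h
          · obtain ⟨h5, h6⟩ := mem_filter.1 h
            exact mem_union_left _ (mem_filter.2 ⟨mem_filter.2 ⟨h5, h4⟩, h6⟩)
          · exact mem_union_right _ h
        refine (card_le_card h2).trans ((card_union_le _ _).trans ?_)
        exact Nat.add_le_add_left card_image_le _
      have h2 : zone C ρ l x x ⊆ (C.filter fun v => v.2 ≤ k).filter fun v => InZ ρ l x x v := by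
        intro v hv
        obtain ⟨h3, h4⟩ := mem_filter.1 hv
        exact mem_filter.2 ⟨mem_filter.2 ⟨h3, h4.2.1.trans hk⟩, h4⟩
      have h3 := card_le_card h2
      have h4 := card_filter_add_card_filter_not (s := C.filter fun v => v.2 ≤ k)
        (fun v => InZ ρ l x x v)
      show cnt C' k ≤ (C.filter fun v => v.2 ≤ k).card
      omega
    · refine card_le_card fun v hv => ?_
      obtain ⟨h3, h4⟩ := mem_filter.1 hv
      rcases mem_union.1 h3 with h | h
      · exact mem_filter.2 ⟨(mem_filter.1 h).1, h4⟩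
      · obtain ⟨u, -, rfl⟩ := mem_image.1 h
        exact absurd h4 hk
  · intro u hu
    have h1 := hT u hu
    rcases hzone (u, ρ) le_rfl (by show ρ ≤ ρ + x; omega) h1.1
      (by show u < l + x + (ρ - ρ); omega) with h | h
    · exact absurd h.1 (by show ρ ≠ ρ + x; omega)
    · exact h
  · refine down_induct (P := fun w => ρ ≤ w.2 → Und (D ∪ C) w → Und (D ∪ C') w) (ρ + x)
      (fun w hw _ => hhigh w hw) fun u y ih1 ih2 hy hU => ?_
    simp only at hy ih1 ih2
    by_cases h5 : ρ + x ≤ y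
    · exact hhigh _ h5 hU
    rw [und_iff_children] at hU ⊢
    have key : ∀ w : Vx, w.2 = y + 1 → (w ∈ D ∪ C ∨ Und (D ∪ C) w) →
        (Und (D ∪ C) w → Und (D ∪ C') w) → (w ∈ D ∪ C' ∨ Und (D ∪ C') w) := by
      intro w hw h1 h2
      rcases h1 with h1 | h1
      · rcases mem_union.1 h1 with h3 | h3
        · exact Or.inl (mem_union_left _ h3)
        · by_cases h4 : InZ ρ l x x w
          · exact (hzone w h4.1.le h4.2.1 h4.2.2.1 h4.2.2.2).imp And.right id
          · exact Or.inl (mem_union_right _ (mem_union_left _ (mem_filter.2 ⟨h3, h4⟩)))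
      · exact Or.inr (h2 h1)
    exact ⟨key _ rfl hU.1 (ih1 (by omega)), key _ rfl hU.2 (ih2 (by omega))⟩
  · exact fun c hc => hagree c (by omega)

end Pool.Agent.Lib.MP_24b7a7_co
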